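import Pool.Agent.Helper46.WR.Defs

/-!
# Top coefficients of Wronskians
-/

open Polynomial

namespace Pool.Agent.Helper46.WR

theorem coeff_zero_of_mem {p : ℝ[X]} {n i : ℕ} (hp : p ∈ degreeLT ℝ n) (h : n ≤ i) :
    p.coeff i = 0 :=
  coeff_eq_zero_of_degree_lt ((mem_degreeLT.1 hp).trans_le (by exact_mod_cast h))

theorem mem_of_coeff_zero {p : ℝ[X]} {n : ℕ} (hp : p ∈ degreeLT ℝ (n + 1)) (h : p.coeff n = 0) :
    p ∈ degreeLT ℝ n := by
  rw [mem_degreeLT, degree_lt_iff_coeff_zero]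
  intro m hm
  rcases eq_or_lt_of_le hm with h1 | h1
  · rw [← h1, h]
  · exact coeff_zero_of_mem hp h1

theorem coeff_wr (p q : ℝ[X]) (n : ℕ) :
    (wronskian p q).coeff n =
      ∑ x ∈ Finset.HasAntidiagonal.antidiagonal (n + 1), ((x.2 : ℝ) - x.1) * (p.coeff x.1 * q.coeff x.2) := by
  have e : ∀ x : ℕ × ℕ, ((x.2 : ℝ) - x.1) * (p.coeff x.1 * q.coeff x.2) =
      (x.2 : ℝ) * (p.coeff x.1 * q.coeff x.2) - (x.1 : ℝ) * (p.coeff x.1 * q.coeff x.2) :=
    fun x => by ring
  simp only [e, Finset.sum_sub_distrib, wronskian, coeff_sub]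
  congr 1
  · rw [Finset.Nat.sum_antidiagonal_succ', coeff_mul]
    simp only [CharP.cast_eq_zero, zero_mul, zero_add, coeff_derivative]
    refine Finset.sum_congr rfl fun x _ => ?_
    push_cast
    ring
  · rw [Finset.Nat.sum_antidiagonal_succ, coeff_mul]
    simp only [CharP.cast_eq_zero, zero_mul, zero_add, coeff_derivative]
    refine Finset.sum_congr rfl fun x _ => ?_
    push_cast
    ring

theorem wr_top1 {p q : ℝ[X]} {a b n : ℕ} (hp : p ∈ degreeLT ℝ (a + 1))
    (hq : q ∈ degreeLT ℝ (b + 1)) (h : n + 1 = a + b) :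
    (wronskian p q).coeff n = ((b : ℝ) - a) * (p.coeff a * q.coeff b) := by
  rw [coeff_wr, Finset.sum_eq_single (a, b)]
  · intro x hx hne
    rw [Finset.HasAntidiagonal.mem_antidiagonal] at hx
    rcases lt_trichotomy x.1 a with h1 | h1 | h1
    · rw [coeff_zero_of_mem hq (by omega), mul_zero, mul_zero]
    · exact absurd (Prod.ext h1 (by simp; omega)) hne
    · rw [coeff_zero_of_mem hp (by omega), zero_mul, mul_zero]
  · intro hx
    rw [Finset.HasAntidiagonal.mem_antidiagonal] at hx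
    exact absurd h.symm hx

theorem wr_top2 {p q : ℝ[X]} {a b : ℕ} (hp : p ∈ degreeLT ℝ (a + 2))
    (hq : q ∈ degreeLT ℝ (b + 2)) :
    (wronskian p q).coeff (a + b) = ((b : ℝ) - (a + 1)) * (p.coeff (a + 1) * q.coeff b) +
      ((b + 1 : ℝ) - a) * (p.coeff a * q.coeff (b + 1)) := by
  rw [coeff_wr, Finset.sum_eq_add (a + 1, b) (a, b + 1)]
  · push_cast
    ring
  · intro h
    have := congrArg Prod.fst h
    simp at this
  · intro x hx hne
    rw [Finset.HasAntidiagonal.mem_antidiagonal] at hx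
    rcases lt_trichotomy x.1 a with h1 | h1 | h1
    · rw [coeff_zero_of_mem hq (by omega), mul_zero, mul_zero]
    · exact absurd (Prod.ext h1 (by simp; omega)) hne.2
    · rcases eq_or_lt_of_le (Nat.succ_le_of_lt h1) with h2 | h2
      · exact absurd (Prod.ext h2.symm (by simp; omega)) hne.1
      · rw [coeff_zero_of_mem hp (by omega), zero_mul, mul_zero]
  · intro hx
    exact absurd (Finset.HasAntidiagonal.mem_antidiagonal.2 (by omega)) hx
  · intro hx
    exact absurd (Finset.HasAntidiagonal.mem_antidiagonal.2 (by omega)) hx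

theorem wr_mem {p q : ℝ[X]} {α β : ℕ} (hp : p ∈ degreeLT ℝ α) (hq : q ∈ degreeLT ℝ β) :
    wronskian p q ∈ degreeLT ℝ (α + β - 2) := by
  rw [mem_degreeLT, degree_lt_iff_coeff_zero]
  intro m hm
  rw [coeff_wr]
  refine Finset.sum_eq_zero fun x hx => ?_
  rw [Finset.HasAntidiagonal.mem_antidiagonal] at hx
  rcases lt_or_ge x.1 α with h1 | h1
  · rcases lt_or_ge x.2 β with h2 | h2
    · have h3 : α = x.1 + 1 ∧ β = x.2 + 1 := by omega
      exfalso
      omega
    · rw [coeff_zero_of_mem hq h2, mul_zero, mul_zero]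
  · rw [coeff_zero_of_mem hp h1, zero_mul, mul_zero]

theorem eq_smul_of_wr_eq_zero {p q : ℝ[X]} (h : wronskian p q = 0) (hp : p ≠ 0) :
    ∃ c : ℝ, q = c • p := by
  rcases eq_or_ne q 0 with hq | hq
  · exact ⟨0, by rw [hq, zero_smul]⟩
  have hcop := isCoprime_div_gcd_div_gcd (p := p) hq
  set g := GCDMonoid.gcd p q with hg
  obtain ⟨p', hp'⟩ : g ∣ p := gcd_dvd_left p q
  obtain ⟨q', hq'⟩ : g ∣ q := gcd_dvd_right p q
  have hg0 : g ≠ 0 := fun h0 => hp (by rw [hp', h0, zero_mul])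
  have e1 : p / g = p' := by
    conv_lhs => rw [hp']
    exact mul_div_cancel_left₀ p' hg0
  have e2 : q / g = q' := by
    conv_lhs => rw [hq']
    exact mul_div_cancel_left₀ q' hg0
  rw [e1, e2] at hcop
  have hw : wronskian p' q' = 0 := by
    have : wronskian p q = g ^ 2 * wronskian p' q' := by
      conv_lhs => rw [hp', hq']
      simp only [wronskian, derivative_mul]
      ring
    rw [this] at h
    rcases mul_eq_zero.1 h with h1 | h1
    · exact absurd (pow_eq_zero_iff (two_ne_zero) |>.1 h1) hg0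
    · exact h1
  obtain ⟨h1, h2⟩ := hcop.wronskian_eq_zero_iff.1 hw
  have h3 := derivative_eq_zero.1 h1
  have h4 := derivative_eq_zero.1 h2
  rw [natDegree_eq_zero] at h3 h4
  obtain ⟨x, hx⟩ := h3
  obtain ⟨y, hy⟩ := h4
  have hx0 : x ≠ 0 := by
    rintro rfl
    apply hp
    rw [hp', ← hx, C_0, mul_zero]
  refine ⟨y / x, ?_⟩
  rw [hp', hq', ← hx, ← hy, smul_eq_C_mul]
  rw [mul_left_comm, ← C_mul, div_mul_cancel₀ y hx0]

end Pool.Agent.Helper46.WR
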