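import Pool.Agent.Helper46.WR.Vec

/-!
# Compactness of the fibres of the Wronski map
-/

open Polynomial Filter Topology

namespace Pool.Agent.Helper46.WR

/-- Orthonormal frames, the first vector being supported on the first `α` coordinates. -/
def Fr (α β : ℕ) : Set ((Fin β → ℝ) × (Fin β → ℝ)) :=
  {x | ∑ i, x.1 i ^ 2 = 1 ∧ ∑ i, x.2 i ^ 2 = 1 ∧ ∑ i, x.1 i * x.2 i = 0 ∧
    ∀ i : Fin β, α ≤ (i : ℕ) → x.1 i = 0}

theorem isCompact_Fr (α β : ℕ) : IsCompact (Fr α β) := by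
  refine Metric.isCompact_of_isClosed_isBounded ?_ ?_
  · refine IsClosed.inter ?_ (IsClosed.inter ?_ (IsClosed.inter ?_ ?_))
    · exact isClosed_eq (by fun_prop) continuous_const
    · exact isClosed_eq (by fun_prop) continuous_const
    · exact isClosed_eq (by fun_prop) continuous_const
    · have : {x : (Fin β → ℝ) × (Fin β → ℝ) | ∀ i : Fin β, α ≤ (i : ℕ) → x.1 i = 0} =
          ⋂ i : Fin β, ⋂ _ : α ≤ (i : ℕ), {x | x.1 i = 0} := by
        ext x
        simp
      change IsClosed {x : (Fin β → ℝ) × (Fin β → ℝ) | ∀ i : Fin β, α ≤ (i : ℕ) → x.1 i = 0}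
      rw [this]
      exact isClosed_iInter fun i => isClosed_iInter fun _ =>
        isClosed_eq (by fun_prop) continuous_const
  · refine (Metric.isBounded_closedBall (x := (0 : (Fin β → ℝ) × (Fin β → ℝ))) (r := 1)).subset ?_
    rintro ⟨u, v⟩ ⟨h1, h2, -, -⟩
    rw [mem_closedBall_zero_iff, Prod.norm_def, sup_le_iff]
    constructor
    · rw [pi_norm_le_iff_of_nonneg zero_le_one]
      intro i
      rw [Real.norm_eq_abs, ← sq_le_one_iff_abs_le_one, ← h1]
      exact Finset.single_le_sum (f := fun i => u i ^ 2) (fun j _ => sq_nonneg _)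
        (Finset.mem_univ i)
    · rw [pi_norm_le_iff_of_nonneg zero_le_one]
      intro i
      rw [Real.norm_eq_abs, ← sq_le_one_iff_abs_le_one, ← h2]
      exact Finset.single_le_sum (f := fun i => v i ^ 2) (fun j _ => sq_nonneg _)
        (Finset.mem_univ i)

theorem wr_ne_of_Fr {α β : ℕ} {x : (Fin β → ℝ) × (Fin β → ℝ)} (hx : x ∈ Fr α β) :
    wronskian (tp x.1) (tp x.2) ≠ 0 := by
  obtain ⟨h1, h2, h3, -⟩ := hx
  intro h
  have hu : tp x.1 ≠ 0 := by
    intro h0
    have : x.1 = 0 := by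
      apply tp_inj
      rw [h0]
      simp [tp]
    rw [this] at h1
    simp at h1
  obtain ⟨c, hc⟩ := eq_smul_of_wr_eq_zero h hu
  rw [← tp_smul] at hc
  have hc' := tp_inj hc
  rw [hc'] at h3 h2
  simp only [Pi.smul_apply, smul_eq_mul] at h3 h2
  have : c * ∑ i, x.1 i ^ 2 = 0 := by
    rw [Finset.mul_sum, ← h3]
    exact Finset.sum_congr rfl fun i _ => by ring
  rw [h1, mul_one] at this
  rw [this] at h2
  simp at h2

/-- Every pair with nonzero Wronskian is a multiple of an orthonormal frame. -/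
theorem exists_Fr {α β : ℕ} (hαβ : α ≤ β) {p q : ℝ[X]} (hp : p ∈ degreeLT ℝ α)
    (hq : q ∈ degreeLT ℝ β) (hW : wronskian p q ≠ 0) :
    ∃ (s : ℝ) (x : (Fin β → ℝ) × (Fin β → ℝ)), x ∈ Fr α β ∧
      s • wronskian (tp x.1) (tp x.2) = wronskian p q ∧ s • pl (tp x.1) (tp x.2) = pl p q := by
  obtain ⟨P, hP⟩ := exists_tp (degreeLT_mono hαβ hp)
  obtain ⟨Q, hQ⟩ := exists_tp hq
  have hP0 : P ≠ 0 := by
    rintro rfl
    apply hW
    rw [← hP]
    simp [tp]
  have pos : ∀ R : Fin β → ℝ, R ≠ 0 → 0 < ∑ i, R i ^ 2 := by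
    intro R hR
    obtain ⟨i, hi⟩ := Function.ne_iff.1 hR
    exact Finset.sum_pos' (fun j _ => sq_nonneg _) ⟨i, Finset.mem_univ i, by
      have : R i ≠ 0 := hi
      positivity⟩
  have norm1 : ∀ R : Fin β → ℝ, R ≠ 0 →
      ∑ i, ((Real.sqrt (∑ i, R i ^ 2))⁻¹ • R) i ^ 2 = 1 := by
    intro R hR
    have h1 := pos R hR
    simp only [Pi.smul_apply, smul_eq_mul, mul_pow]
    rw [← Finset.mul_sum, inv_pow, Real.sq_sqrt h1.le, inv_mul_cancel₀ h1.ne']
  set s1 := Real.sqrt (∑ i, P i ^ 2) with hs1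
  have hs1' : s1 ≠ 0 := (Real.sqrt_pos.2 (pos P hP0)).ne'
  set u := s1⁻¹ • P with hu
  have hu1 : ∑ i, u i ^ 2 = 1 := norm1 P hP0
  have hPu : P = s1 • u := by rw [hu, smul_smul, mul_inv_cancel₀ hs1', one_smul]
  set t := ∑ i, u i * Q i with ht
  set R := Q - t • u with hR
  have hQR : Q = R + t • u := by rw [hR]; abel
  have hR0 : R ≠ 0 := by
    intro h
    apply hW
    have e1 : p = s1 • tp u := by rw [← tp_smul, ← hPu, hP]
    have e2 : q = t • tp u := by rw [← tp_smul, ← hQ, hQR, h, zero_add]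
    rw [e1, e2, wr_smul_left, wr_smul_right, wronskian_self_eq_zero, smul_zero, smul_zero]
  set s2 := Real.sqrt (∑ i, R i ^ 2) with hs2
  have hs2' : s2 ≠ 0 := (Real.sqrt_pos.2 (pos R hR0)).ne'
  set v := s2⁻¹ • R with hv
  have hv1 : ∑ i, v i ^ 2 = 1 := norm1 R hR0
  have hRv : R = s2 • v := by rw [hv, smul_smul, mul_inv_cancel₀ hs2', one_smul]
  have hpq1 : p = s1 • tp u := by rw [← tp_smul, ← hPu, hP]
  have hpq2 : q = s2 • tp v + t • tp u := by rw [← tp_smul, ← tp_smul, ← tp_add, ← hRv, ← hQR, hQ]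
  refine ⟨s1 * s2, (u, v), ⟨hu1, hv1, ?_, ?_⟩, ?_, ?_⟩
  · have h1 : ∑ i, u i * R i = 0 := by
      rw [hR]
      simp only [Pi.sub_apply, Pi.smul_apply, smul_eq_mul, mul_sub, Finset.sum_sub_distrib]
      have : ∑ i, u i * (t * u i) = t * ∑ i, u i ^ 2 := by
        rw [Finset.mul_sum]
        exact Finset.sum_congr rfl fun i _ => by ring
      rw [this, hu1, mul_one, ← ht, sub_self]
    have h2 : s2 * ∑ i, u i * v i = 0 := by
      rw [← h1, Finset.mul_sum]
      refine Finset.sum_congr rfl fun i _ => ?_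
      rw [hRv]
      simp only [Pi.smul_apply, smul_eq_mul]
      ring
    exact (mul_eq_zero.1 h2).resolve_left hs2'
  · intro i hi
    have h1 : P i = 0 := by
      rw [← cf_coe P i, ← coeff_tp, hP]
      exact coeff_zero_of_mem hp hi
    change (s1⁻¹ • P) i = 0
    rw [Pi.smul_apply, h1, smul_zero]
  · simp only
    rw [hpq1, hpq2, wronskian_add_right, wr_smul_left, wr_smul_left, wr_smul_right, wr_smul_right,
      wronskian_self_eq_zero, smul_zero, smul_zero, add_zero, smul_smul]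
  · simp only
    rw [hpq1, hpq2, pl_add_right, pl_smul_left, pl_smul_left, pl_smul_right, pl_smul_right,
      pl_self, smul_zero, smul_zero, add_zero, smul_smul]

@[fun_prop]
theorem continuous_wr {n m : ℕ} {X : Type*} [TopologicalSpace X] {g : X → Fin n → ℝ}
    {h : X → Fin m → ℝ} (hg : Continuous g) (hh : Continuous h) (k : ℕ) :
    Continuous fun x => (wronskian (tp (g x)) (tp (h x))).coeff k := by
  simp only [coeff_wr, coeff_tp]
  fun_prop

@[fun_prop]
theorem continuous_pl {n m : ℕ} {X : Type*} [TopologicalSpace X] {g : X → Fin n → ℝ}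
    {h : X → Fin m → ℝ} (hg : Continuous g) (hh : Continuous h) :
    Continuous fun x => pl (tp (g x)) (tp (h x)) := by
  refine continuous_pi fun i => continuous_pi fun j => ?_
  simp only [pl, coeff_tp]
  fun_prop

theorem compact_limit {α β : ℕ} (hαβ : α ≤ β) {F : ℝ → ℝ[X]}
    (hF : ∀ i, Continuous fun ε => (F ε).coeff i) (h0 : F 0 ≠ 0)
    {Cl : Set (ℕ → ℕ → ℝ)} (hC : IsClosed Cl)
    (h : ∃ᶠ ε in 𝓝[>] (0 : ℝ), ∃ x ∈ Pr (F ε) α β, pl x.1 x.2 ∈ Cl) :
    ∃ x ∈ Pr (F 0) α β, pl x.1 x.2 ∈ Cl := by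
  classical
  set M := 2 * β with hM
  -- lower bound of the Wronskian on frames
  obtain ⟨c, hc, hc'⟩ : ∃ c : ℝ, 0 < c ∧ ∀ x ∈ Fr α β,
      c ≤ ∑ k ∈ Finset.range M, (wronskian (tp x.1) (tp x.2)).coeff k ^ 2 := by
    refine IsCompact.exists_forall_le' (isCompact_Fr α β) (Continuous.continuousOn ?_) ?_
    · refine continuous_finsetSum _ fun k _ => ?_
      exact (continuous_wr continuous_fst continuous_snd k).pow 2
    · intro x hx
      have h1 := wr_ne_of_Fr hx
      have h2 : wronskian (tp x.1) (tp x.2) ∈ degreeLT ℝ M :=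
        degreeLT_mono (by omega) (wr_mem (tp_mem x.1) (tp_mem x.2))
      obtain ⟨k, hk⟩ : ∃ k, (wronskian (tp x.1) (tp x.2)).coeff k ≠ 0 := by
        by_contra hcon
        push Not at hcon
        exact h1 (Polynomial.ext fun k => by rw [hcon k, coeff_zero])
      have hkM : k < M := by
        by_contra hcon
        exact hk (coeff_zero_of_mem h2 (not_lt.1 hcon))
      exact Finset.sum_pos' (fun j _ => sq_nonneg _) ⟨k, Finset.mem_range.2 hkM, by positivity⟩
  -- upper bound of `F`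
  obtain ⟨B, hB⟩ : ∃ B : ℝ, ∀ ε ∈ Set.Icc (0 : ℝ) 1,
      ∑ k ∈ Finset.range M, (F ε).coeff k ^ 2 ≤ B := by
    obtain ⟨B, hB⟩ := isCompact_Icc.exists_bound_of_continuousOn
      (f := fun ε : ℝ => ∑ k ∈ Finset.range M, (F ε).coeff k ^ 2) (s := Set.Icc (0 : ℝ) 1)
      (Continuous.continuousOn (continuous_finsetSum _ fun k _ => (hF k).pow 2))
    exact ⟨B, fun ε hε => (le_abs_self _).trans (hB ε hε)⟩
  set R := Real.sqrt (B / c) with hR
  let T : Set (ℝ × ℝ × (Fin β → ℝ) × (Fin β → ℝ)) :=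
    (Set.Icc (0 : ℝ) 1 ×ˢ (Set.Icc (-R) R ×ˢ Fr α β)) ∩
      ({y | ∀ k, y.2.1 * (wronskian (tp y.2.2.1) (tp y.2.2.2)).coeff k = (F y.1).coeff k} ∩
        {y | y.2.1 • pl (tp y.2.2.1) (tp y.2.2.2) ∈ Cl})
  have hT : IsCompact T := by
    refine (isCompact_Icc.prod (isCompact_Icc.prod (isCompact_Fr α β))).inter_right
      (IsClosed.inter ?_ ?_)
    · simp only [Set.ofPred_forall]
      refine isClosed_iInter fun k => isClosed_eq ?_ ?_
      · exact (continuous_fst.comp continuous_snd).mul (continuous_wr (by fun_prop) (by fun_prop) k)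
      · exact (hF k).comp continuous_fst
    · refine hC.preimage ?_
      exact (continuous_fst.comp continuous_snd).smul (continuous_pl (by fun_prop) (by fun_prop))
  have hproj : IsClosed (Prod.fst '' T) := (hT.image continuous_fst).isClosed
  have hfreq : ∃ᶠ ε in 𝓝[>] (0 : ℝ), ε ∈ Prod.fst '' T := by
    have hne : ∀ᶠ ε in 𝓝[>] (0 : ℝ), F ε ≠ 0 := by
      obtain ⟨k, hk⟩ : ∃ k, (F 0).coeff k ≠ 0 := by
        by_contra hcon
        push Not at hcon
        exact h0 (Polynomial.ext fun k => by rw [hcon k, coeff_zero])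
      have h1 : ∀ᶠ ε in 𝓝 (0 : ℝ), (F ε).coeff k ≠ 0 := (hF k).continuousAt.eventually_ne hk
      filter_upwards [nhdsWithin_le_nhds h1] with ε hε h2
      rw [h2, coeff_zero] at hε
      exact hε rfl
    have h1 : ∀ᶠ ε in 𝓝[>] (0 : ℝ), ε ∈ Set.Icc (0 : ℝ) 1 := by
      filter_upwards [Ioo_mem_nhdsGT (zero_lt_one' ℝ)] with ε hε
      exact ⟨hε.1.le, hε.2.le⟩
    refine (h.and_eventually (hne.and h1)).mono ?_
    rintro ε ⟨⟨⟨p, q⟩, ⟨hp, hq, hW⟩, hcl⟩, hε, hε1⟩
    simp only at hp hq hW hcl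
    obtain ⟨s, x, hx, hs1, hs2⟩ := exists_Fr hαβ hp hq (by rw [hW]; exact hε)
    rw [hW] at hs1
    have hcoef : ∀ k, s * (wronskian (tp x.1) (tp x.2)).coeff k = (F ε).coeff k := fun k => by
      rw [← hs1, coeff_smul, smul_eq_mul]
    refine ⟨(ε, s, x), ⟨⟨hε1, ?_, hx⟩, hcoef, ?_⟩, rfl⟩
    · have h2 : s ^ 2 * c ≤ B := by
        refine (mul_le_mul_of_nonneg_left (hc' x hx) (sq_nonneg s)).trans ?_
        rw [Finset.mul_sum]
        refine le_trans (le_of_eq ?_) (hB ε hε1)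
        exact Finset.sum_congr rfl fun k _ => by rw [← hcoef k, mul_pow]
      have h3 : |s| ≤ R := by
        rw [hR]
        apply Real.abs_le_sqrt
        rw [le_div_iff₀ hc]
        exact h2
      exact abs_le.1 h3
    · change s • pl (tp x.1) (tp x.2) ∈ Cl
      rw [hs2]
      exact hcl
  have h00 : (0 : ℝ) ∈ Prod.fst '' T := by
    refine hproj.mem_of_frequently_of_tendsto hfreq ?_
    exact tendsto_id.mono_left nhdsWithin_le_nhds
  obtain ⟨⟨ε, s, u, v⟩, ⟨⟨-, -, hx⟩, h1, h2⟩, rfl⟩ := h00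
  simp only [Set.mem_ofPred_eq] at h1 h2
  refine ⟨(s • tp u, tp v), ⟨?_, tp_mem v, ?_⟩, ?_⟩
  · refine Submodule.smul_mem _ _ ?_
    rw [mem_degreeLT, degree_lt_iff_coeff_zero]
    intro k hk
    rw [coeff_tp, cf]
    split_ifs with hkb
    · exact hx.2.2.2 ⟨k, hkb⟩ hk
    · rfl
  · ext k
    simp only
    rw [wr_smul_left, coeff_smul, smul_eq_mul, h1 k]
  · simp only
    rw [pl_smul_left]
    exact h2

end Pool.Agent.Helper46.WR
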