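import Mathlib

/-!
# Counting points of a family of sets near a finite set
-/

open Filter Topology

namespace Pool.Agent.Helper46.WR

theorem count {X : Type*} [TopologicalSpace X] [T2Space X] {l : Filter ℝ} {L : Set X}
    (hL : L.Finite) {Z : ℝ → Set X} (h1 : ∀ O, IsOpen O → L ⊆ O → ∀ᶠ ε in l, Z ε ⊆ O)
    (h2 : ∀ x ∈ L, ∀ O ∈ 𝓝 x, ∀ᶠ ε in l, (Z ε ∩ O).Nonempty)
    (h3 : ∀ x ∈ L, ∃ O ∈ 𝓝 x, ∀ᶠ ε in l, (Z ε ∩ O).Subsingleton) :
    ∀ᶠ ε in l, (Z ε).Finite ∧ (Z ε).ncard = L.ncard := by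
  classical
  obtain ⟨U, hU, hdisj⟩ := hL.t2_separation
  choose! O hO hO' using h3
  -- shrink to open sets
  have h4 : ∀ x ∈ L, ∃ V, V ⊆ O x ∩ U x ∧ IsOpen V ∧ x ∈ V := fun x hx =>
    mem_nhds_iff.1 (inter_mem (hO x hx) ((hU x).2.mem_nhds (hU x).1))
  choose! V hV1 hV2 hV3 using h4
  have e1 : ∀ᶠ ε in l, Z ε ⊆ ⋃ x ∈ L, V x :=
    h1 _ (isOpen_biUnion fun x hx => hV2 x hx) fun x hx => Set.mem_biUnion hx (hV3 x hx)
  have e2 : ∀ᶠ ε in l, ∀ x ∈ L, (Z ε ∩ V x).Nonempty := by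
    rw [eventually_all_finite hL]
    intro x hx
    exact h2 x hx (V x) ((hV2 x hx).mem_nhds (hV3 x hx))
  have e3 : ∀ᶠ ε in l, ∀ x ∈ L, (Z ε ∩ O x).Subsingleton := by
    rw [eventually_all_finite hL]
    exact hO'
  filter_upwards [e1, e2, e3] with ε a1 a2 a3
  choose! g hg using a2
  have himg : Z ε = g '' L := by
    ext y
    constructor
    · intro hy
      obtain ⟨x, hx, hyx⟩ := Set.mem_iUnion₂.1 (a1 hy)
      refine ⟨x, hx, ?_⟩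
      exact a3 x hx ⟨(hg x hx).1, (hV1 x hx (hg x hx).2).1⟩ ⟨hy, (hV1 x hx hyx).1⟩
    · rintro ⟨x, hx, rfl⟩
      exact (hg x hx).1
  have hinj : Set.InjOn g L := by
    intro x hx y hy hxy
    by_contra hne
    have h5 := hdisj hx hy hne
    exact Set.disjoint_left.1 h5 (hV1 x hx (hg x hx).2).2
      (by rw [hxy]; exact (hV1 y hy (hg y hy).2).2)
  rw [himg]
  exact ⟨hL.image g, hinj.ncard_image⟩

end Pool.Agent.Helper46.WR
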