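import Mathlib

/-!
# Real fibres of the Wronski map for planes of polynomials: definitions

`pl p q` are the Plücker coordinates of the plane spanned by `p`, `q`; `MM f α β` is the set of the
normalised Plücker vectors of the planes with Wronskian `f` spanned by a polynomial of degree less
than `α` and one of degree less than `β`.
-/

open Polynomial

namespace Pool.Agent.Helper46.WR

/-- Plücker coordinates of a pair of polynomials. -/
def pl (p q : ℝ[X]) : ℕ → ℕ → ℝ := fun i j => p.coeff i * q.coeff j - p.coeff j * q.coeff i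

/-- The pairs of polynomials of degrees `< α`, `< β` with Wronskian `f`. -/
def Pr (f : ℝ[X]) (α β : ℕ) : Set (ℝ[X] × ℝ[X]) :=
  {x | x.1 ∈ degreeLT ℝ α ∧ x.2 ∈ degreeLT ℝ β ∧ wronskian x.1 x.2 = f}

/-- The Plücker vectors of these pairs. -/
def MM (f : ℝ[X]) (α β : ℕ) : Set (ℕ → ℕ → ℝ) := (fun x => pl x.1 x.2) '' Pr f α β

/-- The plane spanned by `p`, `q` is a simple point of its fibre. -/
def ND (α β : ℕ) (p q : ℝ[X]) : Prop :=
  ∀ u ∈ degreeLT ℝ α, ∀ v ∈ degreeLT ℝ β, ∀ c : ℝ,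
    wronskian u q + wronskian p v = c • wronskian p q →
      (∃ a : ℝ, u = a • p) ∧ ∃ a b : ℝ, v = a • p + b • q

/-- All points are simple. -/
def Nondeg (f : ℝ[X]) (α β : ℕ) : Prop := ∀ x ∈ Pr f α β, ND α β x.1 x.2

/-- The polynomial `f (1 + ε² X²)`: two conjugate roots near infinity are added. -/
noncomputable def pert (f : ℝ[X]) (ε : ℝ) : ℝ[X] := f * (1 + C (ε ^ 2) * X ^ 2)

/-- The Wronskian of `k` polynomials. -/
noncomputable def wrk {k : ℕ} (g : Fin k → ℝ[X]) : ℝ[X] :=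
  Matrix.det (Matrix.of fun i j : Fin k => derivative^[(i : ℕ)] (g j))

/-- The real points of the fibre of `f` under the Wronski map of the Grassmannian of
`k`-dimensional subspaces of the space of polynomials of degree `< n`. -/
def realFibre (k n : ℕ) (f : ℝ[X]) : Set (Submodule ℝ ℝ[X]) :=
  {V | V ≤ degreeLT ℝ n ∧ Module.finrank ℝ V = k ∧
    ∃ g : Fin k → ℝ[X], Submodule.span ℝ (Set.range g) = V ∧ ∃ c : ℝ, c ≠ 0 ∧ wrk g = c • f}

/-- `f` has `k (n - k)` distinct roots in `ℙ¹(ℂ)` (`∞` is a root if the degree drops by one). -/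
def DistinctRoots (k n : ℕ) (f : ℝ[X]) : Prop :=
  f.Separable ∧ f.natDegree ≤ k * (n - k) ∧ k * (n - k) ≤ f.natDegree + 1

/-- The formula for `σ_{k,n}`, for odd `n` and `k ≤ n - k`. -/
def sigmaFormula (k n : ℕ) : ℚ :=
  (∏ i ∈ Finset.Icc 1 (k - 1), (i.factorial : ℚ)) *
      (∏ j ∈ Finset.Icc (n - 2 * k + 1) (n - k - 1), (j.factorial : ℚ)) *
      (k * (n - k) / 2).factorial /
    ((∏ i ∈ Finset.Icc 1 (k - 1), ((n - 2 * k + 2 * i).factorial : ℚ)) *
      ∏ i ∈ Finset.Icc 1 k, (((n - 2 * k + 2 * i - 1) / 2).factorial : ℚ))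

/-- The topological lower bound `σ_{k,n}` (Eremenko and Gabrielov). -/
def sigma (k n : ℕ) : ℚ :=
  if Even n then 0 else if k ≤ n - k then sigmaFormula k n else sigmaFormula (n - k) n

/-- `σ_{k,n}` is sharp: some real `f` with distinct roots has exactly `σ_{k,n}` real points in its
fibre. -/
def Sharp (k n : ℕ) : Prop :=
  ∃ f : ℝ[X], DistinctRoots k n f ∧ (realFibre k n f).Finite ∧
    ((realFibre k n f).ncard : ℚ) = sigma k n

/-- Ballot numbers. -/
def bal (i j : ℕ) : ℤ := (i + j - 1).choose i - if i = 0 then 0 else ((i + j - 1).choose (i - 1) : ℤ)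

/-- The induction hypothesis. -/
def Good (m : ℕ) (f : ℝ[X]) : Prop :=
  f.natDegree = 2 * m + 1 ∧ 0 < f.leadingCoeff ∧ (∀ i, Even i → f.coeff i = 0) ∧ f.Separable ∧
    ∀ α β, α ≤ β → α + β = 2 * m + 4 → Nondeg f α β ∧ (MM f α β).Finite ∧
      (Even α → (MM f α β).ncard = 0) ∧
      ∀ i j, α = 2 * i + 1 → β = 2 * j + 1 → ((MM f α β).ncard : ℤ) = bal i j

end Pool.Agent.Helper46.WR
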