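import Pool.Agent.Helper46.WR.Vec

/-!
# Duality between the Wronski maps of `k`- and `(n - k)`-dimensional subspaces
-/

open Polynomial

namespace Pool.Agent.Helper46.WR

/-- The invariant bilinear form `∑ (-1)^i f^(i) g^(n-1-i)` on polynomials of degree `< n`. -/
noncomputable def BF (n : ℕ) : ℝ[X] →ₗ[ℝ] ℝ[X] →ₗ[ℝ] ℝ :=
  LinearMap.mk₂ ℝ (fun f g => ∑ i ∈ Finset.range n, (-1 : ℝ) ^ i *
      (i.factorial * (n - 1 - i).factorial) * (f.coeff i * g.coeff (n - 1 - i)))
    (fun f f' g => by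
      rw [← Finset.sum_add_distrib]
      refine Finset.sum_congr rfl fun i _ => ?_
      rw [coeff_add]
      ring)
    (fun c f g => by
      rw [smul_eq_mul, Finset.mul_sum]
      refine Finset.sum_congr rfl fun i _ => ?_
      rw [coeff_smul, smul_eq_mul]
      ring)
    (fun f g g' => by
      rw [← Finset.sum_add_distrib]
      refine Finset.sum_congr rfl fun i _ => ?_
      rw [coeff_add]
      ring)
    (fun c f g => by
      rw [smul_eq_mul, Finset.mul_sum]
      refine Finset.sum_congr rfl fun i _ => ?_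
      rw [coeff_smul, smul_eq_mul]
      ring)

theorem BF_apply (n : ℕ) (f g : ℝ[X]) : BF n f g = ∑ i ∈ Finset.range n, (-1 : ℝ) ^ i *
    (i.factorial * (n - 1 - i).factorial) * (f.coeff i * g.coeff (n - 1 - i)) := rfl

theorem BF_symm (n : ℕ) (f g : ℝ[X]) : BF n g f = (-1) ^ (n - 1) * BF n f g := by
  rw [BF_apply, BF_apply, Finset.mul_sum, ← Finset.sum_range_reflect]
  refine Finset.sum_congr rfl fun i hi => ?_
  rw [Finset.mem_range] at hi
  have e : n - 1 - (n - 1 - i) = i := by omega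
  have e2 : (-1 : ℝ) ^ (n - 1 - i) = (-1) ^ (n - 1) * (-1) ^ i := by
    have : n - 1 = (n - 1 - i) + i := by omega
    conv_rhs => rw [this, pow_add, mul_assoc, ← pow_add, ← two_mul, pow_mul, neg_one_sq, one_pow,
      mul_one]
  rw [e, e2]
  ring

/-- telescoping -/
theorem deriv_sum (f g : ℝ[X]) (N : ℕ) : ∀ m ≤ N + 1,
    derivative (∑ i ∈ Finset.range m, (-1 : ℝ[X]) ^ i * (derivative^[i] f * derivative^[N - i] g)) =
      f * derivative^[N + 1] g - (-1) ^ m * (derivative^[m] f * derivative^[N + 1 - m] g)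
  | 0, _ => by simp
  | m + 1, hm => by
    rw [Finset.sum_range_succ, derivative_add, deriv_sum f g N m (by omega)]
    have e1 : derivative ((-1 : ℝ[X]) ^ m * (derivative^[m] f * derivative^[N - m] g)) =
        (-1) ^ m * (derivative^[m + 1] f * derivative^[N - m] g +
          derivative^[m] f * derivative^[N - m + 1] g) := by
      have h1 : derivative ((-1 : ℝ[X]) ^ m) = 0 := by
        have : ((-1 : ℝ[X]) ^ m) = C ((-1) ^ m) := by simp
        rw [this, derivative_C]
      rw [derivative_mul, h1, zero_mul, zero_add, derivative_mul, Function.iterate_succ_apply',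
        Function.iterate_succ_apply']
    have e2 : N - m + 1 = N + 1 - m := by omega
    have e3 : N + 1 - (m + 1) = N - m := by omega
    rw [e1, e2, e3, pow_succ]
    ring

theorem sum_eq_C {n : ℕ} (hn : 1 ≤ n) {f g : ℝ[X]} (hf : f ∈ degreeLT ℝ n)
    (hg : g ∈ degreeLT ℝ n) :
    ∑ i ∈ Finset.range n, (-1 : ℝ[X]) ^ i * (derivative^[i] f * derivative^[n - 1 - i] g) =
      C (BF n f g) := by
  obtain ⟨N, rfl⟩ : ∃ N, n = N + 1 := ⟨n - 1, by omega⟩
  rw [Nat.add_sub_cancel]
  have h1 := deriv_sum f g N (N + 1) le_rfl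
  have hf0 : derivative^[N + 1] f = 0 := iterate_derivative_eq_zero_of_degree_lt (mem_degreeLT.1 hf)
  have hg0 : derivative^[N + 1] g = 0 := iterate_derivative_eq_zero_of_degree_lt (mem_degreeLT.1 hg)
  rw [hf0, hg0, zero_mul, mul_zero, mul_zero, sub_zero] at h1
  have h2 := eq_C_of_natDegree_eq_zero (derivative_eq_zero.1 h1)
  rw [h2]
  congr 1
  rw [finsetSum_coeff, BF_apply, Nat.add_sub_cancel]
  refine Finset.sum_congr rfl fun i hi => ?_
  have e : ((-1 : ℝ[X]) ^ i) = C ((-1) ^ i) := by simp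
  rw [e, coeff_C_mul, mul_coeff_zero, coeff_iterate_derivative, coeff_iterate_derivative, zero_add,
    zero_add, Nat.descFactorial_self, Nat.descFactorial_self, nsmul_eq_mul, nsmul_eq_mul]
  ring

/-- The orthogonal space. -/
def ort (n : ℕ) (V : Submodule ℝ ℝ[X]) : Submodule ℝ ℝ[X] where
  carrier := {g | g ∈ degreeLT ℝ n ∧ ∀ f ∈ V, BF n g f = 0}
  add_mem' := by
    rintro a b ⟨h1, h2⟩ ⟨h3, h4⟩
    refine ⟨Submodule.add_mem _ h1 h3, fun f hf => ?_⟩
    rw [map_add, LinearMap.add_apply, h2 f hf, h4 f hf, add_zero]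
  zero_mem' := ⟨Submodule.zero_mem _, fun f _ => by rw [map_zero, LinearMap.zero_apply]⟩
  smul_mem' := by
    rintro c a ⟨h1, h2⟩
    refine ⟨Submodule.smul_mem _ _ h1, fun f hf => ?_⟩
    rw [map_smul, LinearMap.smul_apply, h2 f hf, smul_zero]

theorem mem_ort {n : ℕ} {V : Submodule ℝ ℝ[X]} {g : ℝ[X]} :
    g ∈ ort n V ↔ g ∈ degreeLT ℝ n ∧ ∀ f ∈ V, BF n g f = 0 := Iff.rfl

/-- The form on the space of polynomials of degree `< n`. -/
noncomputable def BD (n : ℕ) : LinearMap.BilinForm ℝ (degreeLT ℝ n) :=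
  (BF n).compl₁₂ (degreeLT ℝ n).subtype (degreeLT ℝ n).subtype

theorem BD_apply (n : ℕ) (f g : degreeLT ℝ n) : BD n f g = BF n (f : ℝ[X]) (g : ℝ[X]) := rfl

theorem BD_left {n : ℕ} {f : degreeLT ℝ n} (h : ∀ g, BD n f g = 0) : f = 0 := by
  ext i
  change (f : ℝ[X]).coeff i = 0
  rcases Nat.lt_or_ge i n with hi | hi
  · have hX : (X ^ (n - 1 - i) : ℝ[X]) ∈ degreeLT ℝ n := by
      rw [mem_degreeLT, degree_X_pow]
      exact_mod_cast (by omega : n - 1 - i < n)
    have h1 := h ⟨X ^ (n - 1 - i), hX⟩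
    rw [BD_apply, BF_apply, Finset.sum_eq_single i] at h1
    · simp only [coeff_X_pow, if_pos, mul_one] at h1
      have h2 : (-1 : ℝ) ^ i * (i.factorial * (n - 1 - i).factorial) ≠ 0 := by positivity
      exact (mul_eq_zero.1 h1).resolve_left h2
    · intro j hj hji
      rw [Finset.mem_range] at hj
      rw [coeff_X_pow, if_neg (by omega), mul_zero, mul_zero]
    · intro hni
      exact absurd (Finset.mem_range.2 hi) hni
  · exact coeff_zero_of_mem f.2 hi

theorem BD_nondeg (n : ℕ) : (BD n).Nondegenerate := by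
  refine ⟨fun f h => BD_left h, fun g h => BD_left fun f => ?_⟩
  rw [BD_apply, BF_symm, ← BD_apply, h f, mul_zero]

end Pool.Agent.Helper46.WR
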