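import Pool.Agent.Helper46.WR.Dual

/-!
# Duality between the Wronski maps of `k`- and `(n - k)`-dimensional subspaces, part 2
-/

open Polynomial

namespace Pool.Agent.Helper46.WR

theorem finrank_degreeLT (n : ℕ) : Module.finrank ℝ (degreeLT ℝ n) = n := by
  rw [(degreeLTEquiv ℝ n).finrank_eq, Module.finrank_fin_fun]

/-- A spanning family of the right size extends to a basis. -/
theorem exists_basis {n k l : ℕ} (h : l + k = n) {V : Submodule ℝ ℝ[X]} (hV : V ≤ degreeLT ℝ n)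
    (hk : Module.finrank ℝ V = k) {v : Fin k → ℝ[X]} (hv : Submodule.span ℝ (Set.range v) = V) :
    ∃ e : Module.Basis (Fin l ⊕ Fin k) ℝ (degreeLT ℝ n), ∀ a, (e (Sum.inr a) : ℝ[X]) = v a := by
  have hfd : FiniteDimensional ℝ (degreeLT ℝ n) := Module.Finite.equiv (degreeLTEquiv ℝ n).symm
  have hmem : ∀ a, v a ∈ degreeLT ℝ n := fun a => hV (hv ▸ Submodule.subset_span ⟨a, rfl⟩)
  have hli : LinearIndependent ℝ v := by
    rw [linearIndependent_iff_card_eq_finrank_span, Fintype.card_fin, Set.finrank, hv, hk]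
  have hli' : LinearIndependent ℝ (fun a => (⟨v a, hmem a⟩ : degreeLT ℝ n)) := by
    apply LinearIndependent.of_comp (degreeLT ℝ n).subtype
    exact hli
  obtain ⟨C, hC⟩ := Submodule.exists_isCompl
    (Submodule.span ℝ (Set.range (fun a => (⟨v a, hmem a⟩ : degreeLT ℝ n))))
  have h1 := Submodule.finrank_add_eq_of_isCompl hC
  rw [finrank_span_eq_card hli', Fintype.card_fin, finrank_degreeLT] at h1
  have hdim : Module.finrank ℝ C = l := by omega
  have hfree : Module.Free ℝ C := Module.Free.of_divisionRing ℝ C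
  refine ⟨((Module.finBasisOfFinrankEq ℝ C hdim).prod (Module.Basis.span hli')).map
    (Submodule.prodEquivOfIsCompl C _ hC.symm), fun a => ?_⟩
  rw [Module.Basis.map_apply, Submodule.coe_prodEquivOfIsCompl']
  simp [Module.Basis.span_apply]

theorem ort_span {n k l : ℕ} (e : Module.Basis (Fin l ⊕ Fin k) ℝ (degreeLT ℝ n))
    {V : Submodule ℝ ℝ[X]} {v : Fin k → ℝ[X]} (hv : Submodule.span ℝ (Set.range v) = V)
    (he : ∀ a, (e (Sum.inr a) : ℝ[X]) = v a) :
    Submodule.span ℝ (Set.range fun b : Fin l =>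
      (((BD n).dualBasis (BD_nondeg n) e (Sum.inl b) : degreeLT ℝ n) : ℝ[X])) = ort n V := by
  apply le_antisymm
  · rw [Submodule.span_le]
    rintro _ ⟨b, rfl⟩
    refine ⟨Subtype.coe_prop _, fun f hf => ?_⟩
    rw [← hv] at hf
    refine Submodule.span_induction ?_ ?_ ?_ ?_ hf
    · rintro _ ⟨a, rfl⟩
      rw [← he a, ← BD_apply, LinearMap.BilinForm.apply_dualBasis_left]
      simp
    · rw [map_zero]
    · intro x y _ _ hx hy
      rw [map_add, hx, hy, add_zero]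
    · intro c x _ hx
      rw [map_smul, hx, smul_zero]
  · rintro x ⟨hx1, hx2⟩
    have h1 := ((BD n).dualBasis (BD_nondeg n) e).sum_repr ⟨x, hx1⟩
    rw [Fintype.sum_sum_type] at h1
    have h2 : ∑ a : Fin k, ((BD n).dualBasis (BD_nondeg n) e).repr ⟨x, hx1⟩ (Sum.inr a) •
        ((BD n).dualBasis (BD_nondeg n) e) (Sum.inr a) = 0 := by
      refine Finset.sum_eq_zero fun a _ => ?_
      rw [LinearMap.BilinForm.dualBasis_repr_apply, BD_apply, he a,
        hx2 _ (hv ▸ Submodule.subset_span ⟨a, rfl⟩), zero_smul]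
    rw [h2, add_zero] at h1
    have h3 := congrArg (Subtype.val) h1
    simp only [Submodule.coe_sum, Submodule.coe_smul] at h3
    rw [← h3]
    exact Submodule.sum_mem _ fun b _ => Submodule.smul_mem _ _ (Submodule.subset_span ⟨b, rfl⟩)

theorem wrk_dual {n k l : ℕ} (hn : 1 ≤ n) (h : l + k = n)
    (e : Module.Basis (Fin l ⊕ Fin k) ℝ (degreeLT ℝ n)) :
    ∃ c : ℝ, c ≠ 0 ∧ wrk (fun b : Fin l =>
      (((BD n).dualBasis (BD_nondeg n) e (Sum.inl b) : degreeLT ℝ n) : ℝ[X])) =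
        c • wrk (fun a : Fin k => (e (Sum.inr a) : ℝ[X])) := by
  set g := (BD n).dualBasis (BD_nondeg n) e with hg
  set iot : Fin l ⊕ Fin k → ℕ := Sum.elim (fun i => (i : ℕ)) (fun j => l + j) with hiot
  set P : Matrix (Fin l ⊕ Fin k) (Fin l ⊕ Fin k) ℝ[X] :=
    Matrix.of fun b i => derivative^[iot i] (g b : ℝ[X]) with hP
  set Q : Matrix (Fin l ⊕ Fin k) (Fin l ⊕ Fin k) ℝ[X] :=
    Matrix.of fun i a => (-1) ^ (iot i) * derivative^[n - 1 - iot i] (e a : ℝ[X]) with hQ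
  have hPQ : P * Q = 1 := by
    ext1 b a
    rw [Matrix.mul_apply, Fintype.sum_sum_type]
    have h1 : ∑ i : Fin l, P b (Sum.inl i) * Q (Sum.inl i) a = ∑ i ∈ Finset.range l,
        (-1 : ℝ[X]) ^ i * (derivative^[i] (g b : ℝ[X]) * derivative^[n - 1 - i] (e a : ℝ[X])) := by
      rw [← Fin.sum_univ_eq_sum_range (fun i => (-1 : ℝ[X]) ^ i *
        (derivative^[i] (g b : ℝ[X]) * derivative^[n - 1 - i] (e a : ℝ[X])))]
      refine Finset.sum_congr rfl fun i _ => ?_
      simp only [hP, hQ, hiot, Matrix.of_apply, Sum.elim_inl]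
      ring
    have h2 : ∑ i : Fin k, P b (Sum.inr i) * Q (Sum.inr i) a = ∑ i ∈ Finset.range k,
        (-1 : ℝ[X]) ^ (l + i) * (derivative^[l + i] (g b : ℝ[X]) *
          derivative^[n - 1 - (l + i)] (e a : ℝ[X])) := by
      rw [← Fin.sum_univ_eq_sum_range (fun i => (-1 : ℝ[X]) ^ (l + i) *
        (derivative^[l + i] (g b : ℝ[X]) * derivative^[n - 1 - (l + i)] (e a : ℝ[X])))]
      refine Finset.sum_congr rfl fun i _ => ?_
      simp only [hP, hQ, hiot, Matrix.of_apply, Sum.elim_inr]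
      ring
    rw [h1, h2, ← Finset.sum_range_add (fun i => (-1 : ℝ[X]) ^ i *
        (derivative^[i] (g b : ℝ[X]) * derivative^[n - 1 - i] (e a : ℝ[X]))), h,
      sum_eq_C hn (g b).2 (e a).2, ← BD_apply, hg, LinearMap.BilinForm.apply_dualBasis_left,
      Matrix.one_apply]
    by_cases hab : a = b
    · rw [if_pos hab, if_pos hab.symm, C_1]
    · rw [if_neg hab, if_neg (Ne.symm hab), C_0]
  have hdet : P.det * Q.det = 1 := by rw [← Matrix.det_mul, hPQ, Matrix.det_one]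
  obtain ⟨r, hr, hrP⟩ := Polynomial.isUnit_iff.1 (IsUnit.of_mul_eq_one _ hdet)
  have hblock : P.toBlocks₁₁.det = P.det * Q.toBlocks₂₂.det := by
    have h1 := hPQ
    rw [← Matrix.fromBlocks_toBlocks P, ← Matrix.fromBlocks_toBlocks Q,
      Matrix.fromBlocks_multiply, ← Matrix.fromBlocks_one, Matrix.fromBlocks_inj] at h1
    obtain ⟨-, h12, -, h22⟩ := h1
    have h3 : P * Matrix.fromBlocks 1 Q.toBlocks₁₂ 0 Q.toBlocks₂₂ =
        Matrix.fromBlocks P.toBlocks₁₁ 0 P.toBlocks₂₁ 1 := by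
      conv_lhs => rw [← Matrix.fromBlocks_toBlocks P]
      rw [Matrix.fromBlocks_multiply, h12, h22, Matrix.mul_one, Matrix.mul_zero, Matrix.mul_one,
        Matrix.mul_zero, add_zero, add_zero]
    have h4 := congrArg Matrix.det h3
    rw [Matrix.det_mul, Matrix.det_fromBlocks_zero₂₁, Matrix.det_fromBlocks_zero₁₂, Matrix.det_one,
      Matrix.det_one, one_mul, mul_one] at h4
    exact h4.symm
  have h11 : P.toBlocks₁₁.det = wrk (fun b : Fin l => (g (Sum.inl b) : ℝ[X])) := by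
    rw [wrk, ← Matrix.det_transpose]
    rfl
  set W : Matrix (Fin k) (Fin k) ℝ[X] :=
    Matrix.of fun i j : Fin k => derivative^[(i : ℕ)] (e (Sum.inr j) : ℝ[X]) with hW
  have h22 : Q.toBlocks₂₂ = Matrix.of fun i j : Fin k => (fun i : Fin k => (-1 : ℝ[X]) ^ (l + i)) i *
      (W.submatrix Fin.revPerm id) i j := by
    ext1 i j
    have e1 : n - 1 - (l + (i : ℕ)) = ((Fin.rev i : Fin k) : ℕ) := by
      rw [Fin.val_rev]
      omega
    change (-1 : ℝ[X]) ^ (l + (i : ℕ)) * derivative^[n - 1 - (l + (i : ℕ))] (e (Sum.inr j) : ℝ[X]) =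
      (-1 : ℝ[X]) ^ (l + (i : ℕ)) * derivative^[((Fin.rev i : Fin k) : ℕ)] (e (Sum.inr j) : ℝ[X])
    rw [e1]
  rw [h22, Matrix.det_mul_column, Matrix.det_permute, h11] at hblock
  have h5 : ∏ i : Fin k, (-1 : ℝ[X]) ^ (l + (i : ℕ)) = C (∏ i : Fin k, (-1 : ℝ) ^ (l + (i : ℕ))) := by
    rw [map_prod]
    refine Finset.prod_congr rfl fun i _ => ?_
    simp
  have h6 : (((Equiv.Perm.sign (Fin.revPerm : Equiv.Perm (Fin k)) : ℤˣ) : ℤ) : ℝ[X]) =
      C ((((Equiv.Perm.sign (Fin.revPerm : Equiv.Perm (Fin k)) : ℤˣ) : ℤ)) : ℝ) := by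
    simp
  rw [h5, h6, ← hrP] at hblock
  refine ⟨r * ((∏ i : Fin k, (-1 : ℝ) ^ (l + (i : ℕ))) *
    (((Equiv.Perm.sign (Fin.revPerm : Equiv.Perm (Fin k)) : ℤˣ) : ℤ) : ℝ)), ?_, ?_⟩
  · refine mul_ne_zero hr.ne_zero (mul_ne_zero ?_ ?_)
    · exact Finset.prod_ne_zero_iff.2 fun i _ => pow_ne_zero _ (by norm_num)
    · exact_mod_cast (Equiv.Perm.sign (Fin.revPerm : Equiv.Perm (Fin k))).ne_zero
  · rw [hblock, smul_eq_C_mul, wrk, C_mul, C_mul]
    ring

theorem ort_mem {n k l : ℕ} (hn : 1 ≤ n) (h : l + k = n) {f : ℝ[X]} {V : Submodule ℝ ℝ[X]}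
    (hV : V ∈ realFibre k n f) : ort n V ∈ realFibre l n f := by
  obtain ⟨h1, h2, v, h3, c, hc, h4⟩ := hV
  obtain ⟨e, he⟩ := exists_basis h h1 h2 h3
  obtain ⟨c', hc', h5⟩ := wrk_dual hn h e
  have h6 := ort_span e h3 he
  refine ⟨fun x hx => hx.1, ?_, _, h6, c' * c, mul_ne_zero hc' hc, ?_⟩
  · rw [← h6, finrank_span_eq_card, Fintype.card_fin]
    have h7 := ((BD n).dualBasis (BD_nondeg n) e).linearIndependent
    have h8 := h7.comp Sum.inl Sum.inl_injective
    exact h8.map' (degreeLT ℝ n).subtype (Submodule.ker_subtype _)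
  · rw [h5, mul_smul, ← h4]
    congr 2
    exact funext he

theorem ort_ort {n k l : ℕ} (hn : 1 ≤ n) (h : l + k = n) {f : ℝ[X]} {V : Submodule ℝ ℝ[X]}
    (hV : V ∈ realFibre k n f) : ort n (ort n V) = V := by
  have h1 := ort_mem hn h hV
  have h2 := ort_mem hn (by omega : k + l = n) h1
  have hfd : FiniteDimensional ℝ (degreeLT ℝ n) := Module.Finite.equiv (degreeLTEquiv ℝ n).symm
  have hfd2 : FiniteDimensional ℝ (ort n (ort n V)) := by
    exact Submodule.finiteDimensional_of_le h2.1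
  symm
  apply Submodule.eq_of_le_of_finrank_eq
  · intro x hx
    refine ⟨hV.1 hx, fun f hf => ?_⟩
    rw [BF_symm, hf.2 x hx, mul_zero]
  · rw [h2.2.1, hV.2.1]

theorem fibre_dual {n k l : ℕ} (hn : 1 ≤ n) (h : l + k = n) (f : ℝ[X]) :
    Set.BijOn (ort n) (realFibre k n f) (realFibre l n f) :=
  Set.InvOn.bijOn (f' := ort n) ⟨fun _ hV => ort_ort hn h hV,
    fun _ hV => ort_ort hn (by omega : k + l = n) hV⟩ (fun _ hV => ort_mem hn h hV)
    (fun _ hV => ort_mem hn (by omega : k + l = n) hV)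

end Pool.Agent.Helper46.WR
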