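import Pool.Agent.Helper46.WR.Vec

/-!
# Real fibres and Plücker vectors
-/

open Polynomial

namespace Pool.Agent.Helper46.WR

theorem image_equiv {X A B : Type*} {S : Set X} {g : X → A} {h : X → B}
    (hgh : ∀ x ∈ S, ∀ y ∈ S, g x = g y ↔ h x = h y) (hfin : (h '' S).Finite) :
    (g '' S).Finite ∧ (g '' S).ncard = (h '' S).ncard := by
  classical
  rcases S.eq_empty_or_nonempty with rfl | ⟨x₀, hx₀⟩
  · simp
  have hne : Nonempty X := ⟨x₀⟩
  have hc : ∀ b ∈ h '' S, ∃ x ∈ S, h x = b := fun b hb => hb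
  choose! k hk1 hk2 using hc
  have himg : g '' S = (fun b => g (k b)) '' (h '' S) := by
    ext a
    constructor
    · rintro ⟨x, hx, rfl⟩
      refine ⟨h x, ⟨x, hx, rfl⟩, ?_⟩
      exact (hgh _ (hk1 _ ⟨x, hx, rfl⟩) x hx).2 (hk2 _ ⟨x, hx, rfl⟩)
    · rintro ⟨b, hb, rfl⟩
      exact ⟨k b, hk1 b hb, rfl⟩
  have hinj : Set.InjOn (fun b => g (k b)) (h '' S) := by
    intro b hb b' hb' hbb
    have := (hgh _ (hk1 b hb) _ (hk1 b' hb')).1 hbb
    rw [← hk2 b hb, ← hk2 b' hb', this]
  rw [himg]
  exact ⟨hfin.image _, hinj.ncard_image⟩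

theorem linInd_of_wr {p q : ℝ[X]} (h : wronskian p q ≠ 0) : LinearIndependent ℝ ![p, q] := by
  rw [LinearIndependent.pair_iff]
  intro s t hst
  have hs : s • wronskian p q = 0 := by
    have h1 : wronskian (s • p + t • q) q = 0 := by rw [hst, wronskian_zero_left]
    rw [wronskian_add_left, wr_smul_left, wr_smul_left, wronskian_self_eq_zero, smul_zero,
      add_zero] at h1
    exact h1
  have ht : t • wronskian p q = 0 := by
    have h1 : wronskian p (s • p + t • q) = 0 := by rw [hst, wronskian_zero_right]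
    rw [wronskian_add_right, wr_smul_right, wr_smul_right, wronskian_self_eq_zero, smul_zero,
      zero_add] at h1
    exact h1
  exact ⟨(smul_eq_zero.1 hs).resolve_right h, (smul_eq_zero.1 ht).resolve_right h⟩

theorem finrank_span_pair {p q : ℝ[X]} (h : wronskian p q ≠ 0) :
    Module.finrank ℝ (Submodule.span ℝ (Set.range ![p, q])) = 2 := by
  rw [finrank_span_eq_card (linInd_of_wr h), Fintype.card_fin]

theorem mem_span_range {p q r : ℝ[X]} :
    r ∈ Submodule.span ℝ (Set.range ![p, q]) ↔ ∃ a b : ℝ, a • p + b • q = r := by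
  rw [Matrix.range_cons, Matrix.range_cons, Matrix.range_empty, Set.union_empty,
    Set.singleton_union, Submodule.mem_span_pair]

theorem span_eq_of_mem {p q : ℝ[X]} {V : Submodule ℝ ℝ[X]} (h : wronskian p q ≠ 0)
    (hV : Module.finrank ℝ V = 2) (hp : p ∈ V) (hq : q ∈ V) :
    Submodule.span ℝ (Set.range ![p, q]) = V := by
  have : FiniteDimensional ℝ V := FiniteDimensional.of_finrank_pos (by rw [hV]; norm_num)
  refine Submodule.eq_of_le_of_finrank_eq ?_ (by rw [hV, finrank_span_pair h])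
  rw [Submodule.span_le]
  rintro _ ⟨i, rfl⟩
  fin_cases i
  · exact hp
  · exact hq

theorem wrk_two (g : Fin 2 → ℝ[X]) : wrk g = wronskian (g 0) (g 1) := by
  simp [wrk, Matrix.det_fin_two, wronskian]
  ring

theorem wr_comb (p q : ℝ[X]) (a b c d : ℝ) :
    wronskian (a • p + b • q) (c • p + d • q) = (a * d - b * c) • wronskian p q := by
  rw [wronskian_add_left, wronskian_add_right, wronskian_add_right]
  simp only [wr_smul_left, wr_smul_right, wronskian_self_eq_zero, smul_zero]
  rw [← wronskian_neg_eq p q]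
  module

theorem pl_comb (p q : ℝ[X]) (a b c d : ℝ) :
    pl (a • p + b • q) (c • p + d • q) = (a * d - b * c) • pl p q := by
  funext i j
  simp only [pl, coeff_add, coeff_smul, smul_eq_mul, Pi.smul_apply]
  ring

theorem exists_pl_ne {p q : ℝ[X]} (h : wronskian p q ≠ 0) : ∃ i j, pl p q i j ≠ 0 := by
  by_contra hcon
  push Not at hcon
  have hp : p ≠ 0 := by
    rintro rfl
    exact h (wronskian_zero_left q)
  obtain ⟨i, hi⟩ : ∃ i, p.coeff i ≠ 0 := by
    by_contra hc
    push Not at hc
    exact hp (Polynomial.ext fun k => by rw [hc k, coeff_zero])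
  have : q = (q.coeff i / p.coeff i) • p := by
    ext j
    have h1 := hcon i j
    rw [pl] at h1
    rw [coeff_smul, smul_eq_mul]
    field_simp
    linarith
  rw [this, wr_smul_right, wronskian_self_eq_zero, smul_zero] at h
  exact h rfl

theorem span_le_of_pl {p q p' q' : ℝ[X]} (h : wronskian p q ≠ 0) (he : pl p q = pl p' q') :
    Submodule.span ℝ (Set.range ![p, q]) ≤ Submodule.span ℝ (Set.range ![p', q']) := by
  obtain ⟨i, j, hij⟩ := exists_pl_ne h
  have hR : ∀ k, p.coeff k • q - q.coeff k • p = p'.coeff k • q' - q'.coeff k • p' := by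
    intro k
    ext l
    have := congrFun (congrFun he k) l
    rw [pl, pl] at this
    simp only [coeff_sub, coeff_smul, smul_eq_mul]
    linarith
  have hmem : ∀ k, p.coeff k • q - q.coeff k • p ∈ Submodule.span ℝ (Set.range ![p', q']) := by
    intro k
    rw [hR k, mem_span_range]
    exact ⟨-q'.coeff k, p'.coeff k, by module⟩
  have hp : p ∈ Submodule.span ℝ (Set.range ![p', q']) := by
    have e : p = (pl p q i j)⁻¹ • (p.coeff j • (p.coeff i • q - q.coeff i • p) -
        p.coeff i • (p.coeff j • q - q.coeff j • p)) := by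
      have : p.coeff j • (p.coeff i • q - q.coeff i • p) -
        p.coeff i • (p.coeff j • q - q.coeff j • p) = pl p q i j • p := by
        rw [pl]
        module
      rw [this, smul_smul, inv_mul_cancel₀ hij, one_smul]
    rw [e]
    exact Submodule.smul_mem _ _ (Submodule.sub_mem _ (Submodule.smul_mem _ _ (hmem i))
      (Submodule.smul_mem _ _ (hmem j)))
  have hq : q ∈ Submodule.span ℝ (Set.range ![p', q']) := by
    have e : q = (pl p q i j)⁻¹ • (q.coeff j • (p.coeff i • q - q.coeff i • p) -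
        q.coeff i • (p.coeff j • q - q.coeff j • p)) := by
      have : q.coeff j • (p.coeff i • q - q.coeff i • p) -
        q.coeff i • (p.coeff j • q - q.coeff j • p) = pl p q i j • q := by
        rw [pl]
        module
      rw [this, smul_smul, inv_mul_cancel₀ hij, one_smul]
    rw [e]
    exact Submodule.smul_mem _ _ (Submodule.sub_mem _ (Submodule.smul_mem _ _ (hmem i))
      (Submodule.smul_mem _ _ (hmem j)))
  rw [Submodule.span_le]
  rintro _ ⟨k, rfl⟩
  fin_cases k
  · exact hp
  · exact hq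

theorem realFibre_eq {N : ℕ} {f : ℝ[X]} (hf : f ≠ 0) (hdeg : f.natDegree + 1 = 2 * N) :
    realFibre 2 (N + 2) f =
      (fun x : ℝ[X] × ℝ[X] => Submodule.span ℝ (Set.range ![x.1, x.2])) '' Pr f N (N + 2) := by
  ext V
  constructor
  · rintro ⟨hV, hrank, g, hg, c, hc, hW⟩
    rw [wrk_two] at hW
    have ha : g 0 ∈ V := by rw [← hg]; exact Submodule.subset_span ⟨0, rfl⟩
    have hb : g 1 ∈ V := by rw [← hg]; exact Submodule.subset_span ⟨1, rfl⟩
    set a := g 0
    set b := g 1
    have h1 := wr_top2 (a := N) (b := N) (hV ha) (hV hb)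
    rw [hW, coeff_smul, coeff_eq_zero_of_natDegree_lt (by omega), smul_zero] at h1
    have h1' : a.coeff N * b.coeff (N + 1) = a.coeff (N + 1) * b.coeff N := by linarith
    obtain ⟨x, y, hxy, h2, h3⟩ : ∃ x y : ℝ, (x ≠ 0 ∨ y ≠ 0) ∧
        x * a.coeff N + y * b.coeff N = 0 ∧ x * a.coeff (N + 1) + y * b.coeff (N + 1) = 0 := by
      rcases eq_or_ne (a.coeff N) 0 with h4 | h4
      · rcases eq_or_ne (a.coeff (N + 1)) 0 with h5 | h5
        · exact ⟨1, 0, Or.inl one_ne_zero, by rw [h4]; ring, by rw [h5]; ring⟩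
        · refine ⟨-b.coeff (N + 1), a.coeff (N + 1), Or.inr h5, ?_, by ring⟩
          rw [← h1', h4]
          ring
      · refine ⟨-b.coeff N, a.coeff N, Or.inr h4, by ring, ?_⟩
        rw [h1']
        ring
    have hp0 : x • a + y • b ∈ degreeLT ℝ N := by
      refine mem_of_coeff_zero (mem_of_coeff_zero (Submodule.add_mem _
        (Submodule.smul_mem _ _ (hV ha)) (Submodule.smul_mem _ _ (hV hb))) ?_) ?_
      · rw [coeff_add, coeff_smul, coeff_smul, smul_eq_mul, smul_eq_mul]
        exact h3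
      · rw [coeff_add, coeff_smul, coeff_smul, smul_eq_mul, smul_eq_mul]
        exact h2
    obtain ⟨q, hqV, k, hk, hkW⟩ : ∃ q ∈ V, ∃ k : ℝ, k ≠ 0 ∧ wronskian (x • a + y • b) q = k • f := by
      rcases eq_or_ne y 0 with hy | hy
      · refine ⟨b, hb, x * c, ?_, ?_⟩
        · exact mul_ne_zero (hxy.resolve_right (not_not.2 hy)) hc
        · rw [hy, zero_smul, add_zero, wr_smul_left, hW, smul_smul]
      · refine ⟨a, ha, -(y * c), neg_ne_zero.2 (mul_ne_zero hy hc), ?_⟩
        rw [wronskian_add_left, wr_smul_left, wr_smul_left, wronskian_self_eq_zero, smul_zero,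
          zero_add, ← wronskian_neg_eq a b, hW]
        module
    have hWp : wronskian (k⁻¹ • (x • a + y • b)) q = f := by
      rw [wr_smul_left, hkW, smul_smul, inv_mul_cancel₀ hk, one_smul]
    refine ⟨(k⁻¹ • (x • a + y • b), q), ⟨Submodule.smul_mem _ _ hp0, hV hqV, hWp⟩, ?_⟩
    refine span_eq_of_mem (by rw [hWp]; exact hf) hrank ?_ hqV
    exact Submodule.smul_mem _ _ (Submodule.add_mem _ (Submodule.smul_mem _ _ ha)
      (Submodule.smul_mem _ _ hb))
  · rintro ⟨⟨p, q⟩, ⟨hp, hq, hW⟩, rfl⟩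
    simp only at hp hq hW ⊢
    have hW0 : wronskian p q ≠ 0 := by rw [hW]; exact hf
    refine ⟨?_, finrank_span_pair hW0, ![p, q], rfl, 1, one_ne_zero, ?_⟩
    · rw [Submodule.span_le]
      rintro _ ⟨k, rfl⟩
      fin_cases k
      · exact degreeLT_mono (by omega) hp
      · exact hq
    · rw [wrk_two, one_smul]
      exact hW

theorem ncard_realFibre {N : ℕ} {f : ℝ[X]} (hf : f ≠ 0) (hdeg : f.natDegree + 1 = 2 * N)
    (hfin : (MM f N (N + 2)).Finite) :
    (realFibre 2 (N + 2) f).Finite ∧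
      (realFibre 2 (N + 2) f).ncard = (MM f N (N + 2)).ncard := by
  rw [realFibre_eq hf hdeg]
  refine image_equiv ?_ hfin
  rintro ⟨p, q⟩ ⟨-, -, hW⟩ ⟨p', q'⟩ ⟨-, -, hW'⟩
  simp only at hW hW' ⊢
  constructor
  · intro h
    have h1 : p' ∈ Submodule.span ℝ (Set.range ![p, q]) := by
      rw [h]; exact Submodule.subset_span ⟨0, rfl⟩
    have h2 : q' ∈ Submodule.span ℝ (Set.range ![p, q]) := by
      rw [h]; exact Submodule.subset_span ⟨1, rfl⟩
    obtain ⟨a, b, hab⟩ := mem_span_range.1 h1
    obtain ⟨c, d, hcd⟩ := mem_span_range.1 h2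
    have h3 := wr_comb p q a b c d
    rw [hab, hcd, hW, hW'] at h3
    have h4 : (a * d - b * c - 1) • f = 0 := by
      rw [sub_smul, one_smul, ← h3, sub_self]
    have h5 : a * d - b * c = 1 := by
      have := (smul_eq_zero.1 h4).resolve_right hf
      linarith
    rw [← hab, ← hcd, pl_comb, h5, one_smul]
  · intro h
    exact le_antisymm (span_le_of_pl (by rw [hW]; exact hf) h)
      (span_le_of_pl (by rw [hW']; exact hf) h.symm)

end Pool.Agent.Helper46.WR
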