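import Mathlib

/-!
# Inverse function theorem with an injective derivative
-/

open Filter Topology

namespace Pool.Agent.Helper46.WR

theorem ift {E F : Type*} [NormedAddCommGroup E] [NormedSpace ℝ E] [FiniteDimensional ℝ E]
    [NormedAddCommGroup F] [NormedSpace ℝ F] [FiniteDimensional ℝ F]
    (hd : Module.finrank ℝ E = Module.finrank ℝ F) {Φ : E → F} (hΦ : ContDiff ℝ 1 Φ) {x₀ : E}
    (hinj : Function.Injective (fderiv ℝ Φ x₀)) :
    ∃ U ∈ 𝓝 x₀, Set.InjOn Φ U ∧ (∀ x ∈ U, Function.Injective (fderiv ℝ Φ x)) ∧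
      ∀ V ∈ 𝓝 x₀, Φ '' V ∈ 𝓝 (Φ x₀) := by
  have : CompleteSpace E := FiniteDimensional.complete ℝ E
  let e : E ≃L[ℝ] F :=
    (LinearMap.linearEquivOfInjective (fderiv ℝ Φ x₀ : E →ₗ[ℝ] F) hinj hd).toContinuousLinearEquiv
  have he : (e : E →L[ℝ] F) = fderiv ℝ Φ x₀ := by
    ext x
    rfl
  have hstrict : HasStrictFDerivAt Φ (e : E →L[ℝ] F) x₀ := by
    rw [he]
    exact hΦ.contDiffAt.hasStrictFDerivAt (by norm_num)
  have h1 : (hstrict.toOpenPartialHomeomorph Φ).source ∈ 𝓝 x₀ :=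
    (hstrict.toOpenPartialHomeomorph Φ).open_source.mem_nhds
      hstrict.mem_toOpenPartialHomeomorph_source
  have h2 : {x | Function.Injective (fderiv ℝ Φ x)} ∈ 𝓝 x₀ := by
    have hcont : Continuous (fderiv ℝ Φ) := hΦ.continuous_fderiv (by norm_num)
    have h3 := ContinuousLinearEquiv.nhds e
    rw [he] at h3
    filter_upwards [hcont.continuousAt.preimage_mem_nhds h3] with x hx
    obtain ⟨g, hg⟩ := hx
    rw [← hg]
    exact g.injective
  refine ⟨_, inter_mem h1 h2, ?_, fun x hx => hx.2, ?_⟩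
  · exact (hstrict.toOpenPartialHomeomorph Φ).injOn.mono Set.inter_subset_left
  · intro V hV
    rw [← hstrict.map_nhds_eq_of_equiv]
    exact image_mem_map hV

end Pool.Agent.Helper46.WR
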