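import Pool.Agent.Helper46.WR.Step

/-!
# The polynomials with few real solutions
-/

open Polynomial Filter Topology

namespace Pool.Agent.Helper46.WR

theorem nondeg_of_empty {f : ℝ[X]} {α β : ℕ} (h : Pr f α β = ∅) : Nondeg f α β := by
  intro x hx
  rw [h] at hx
  exact absurd hx (Set.notMem_empty _)

theorem MM_of_empty {f : ℝ[X]} {α β : ℕ} (h : Pr f α β = ∅) : MM f α β = ∅ := by
  rw [MM, h, Set.image_empty]

theorem one_spec {f : ℝ[X]} (hf : f ≠ 0) {β : ℕ} {p q : ℝ[X]} (hx : (p, q) ∈ Pr f 1 β) :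
    ∃ c : ℝ, c ≠ 0 ∧ p = c • (1 : ℝ[X]) := by
  obtain ⟨h1, -, h3⟩ := hx
  simp only at h1 h3
  have h4 : p = C (p.coeff 0) := by
    ext i
    rcases Nat.eq_zero_or_pos i with rfl | hi
    · rw [coeff_C_zero]
    · rw [coeff_C, if_neg hi.ne', coeff_zero_of_mem h1 hi]
  refine ⟨p.coeff 0, ?_, ?_⟩
  · intro h0
    rw [h4, h0, C_0, wronskian_zero_left] at h3
    exact hf h3.symm
  · conv_lhs => rw [h4]
    rw [smul_eq_C_mul, mul_one]

theorem nondeg_one {f : ℝ[X]} (hf : f ≠ 0) (β : ℕ) : Nondeg f 1 β := by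
  rintro ⟨p, q⟩ hx
  obtain ⟨c, hc, hp⟩ := one_spec hf hx
  intro u hu v hv k hk
  simp only at hk ⊢
  have hu' : u = C (u.coeff 0) := by
    ext i
    rcases Nat.eq_zero_or_pos i with rfl | hi
    · rw [coeff_C_zero]
    · rw [coeff_C, if_neg hi.ne', coeff_zero_of_mem hu hi]
  have hup : u = (u.coeff 0 / c) • p := by
    rw [hp, smul_smul, div_mul_cancel₀ _ hc, smul_eq_C_mul, mul_one]
    exact hu'
  refine ⟨⟨_, hup⟩, ?_⟩
  set a := u.coeff 0 / c with ha
  have hW : wronskian p (v + (a - k) • q) = 0 := by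
    rw [hup, wr_smul_left] at hk
    rw [wronskian_add_right, wr_smul_right]
    have : wronskian p v = k • wronskian p q - a • wronskian p q := by rw [← hk]; abel
    rw [this]
    module
  have hp0 : p ≠ 0 := by
    rw [hp]
    exact smul_ne_zero hc one_ne_zero
  obtain ⟨b, hb⟩ := eq_smul_of_wr_eq_zero hW hp0
  refine ⟨b, k - a, ?_⟩
  have : v = b • p - (a - k) • q := by rw [← hb]; abel
  rw [this]
  module

theorem MM_one_subsingleton {f : ℝ[X]} (hf : f ≠ 0) (β : ℕ) : (MM f 1 β).Subsingleton := by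
  rintro M ⟨⟨p, q⟩, hx, rfl⟩ M' ⟨⟨p', q'⟩, hx', rfl⟩
  obtain ⟨c, hc, hp⟩ := one_spec hf hx
  obtain ⟨c', hc', hp'⟩ := one_spec hf hx'
  obtain ⟨-, -, hW⟩ := hx
  obtain ⟨-, -, hW'⟩ := hx'
  simp only at hW hW' ⊢
  have e1 : wronskian (1 : ℝ[X]) (c • q) = f := by rw [wr_smul_right, ← wr_smul_left, ← hp, hW]
  have e2 : wronskian (1 : ℝ[X]) (c' • q') = f := by rw [wr_smul_right, ← wr_smul_left, ← hp', hW']
  have e3 : wronskian (1 : ℝ[X]) (c • q - c' • q') = 0 := by rw [wr_sub_right, e1, e2, sub_self]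
  obtain ⟨b, hb⟩ := eq_smul_of_wr_eq_zero e3 one_ne_zero
  have e4 : c • q = c' • q' + b • (1 : ℝ[X]) := by rw [← hb]; abel
  rw [hp, hp', pl_smul_left, pl_smul_left, ← pl_smul_right, ← pl_smul_right, e4, pl_add_right,
    pl_smul_right b, pl_self, smul_zero, add_zero]

theorem good_zero : Good 0 X := by
  have hX : (X : ℝ[X]) ≠ 0 := X_ne_zero
  refine ⟨natDegree_X, by rw [leadingCoeff_X]; exact one_pos, ?_, separable_X, ?_⟩
  · intro i hi
    rw [coeff_X, if_neg]
    rintro rfl
    exact absurd hi (by decide)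
  · intro α β hαβ hsum
    have hα : α = 0 ∨ α = 1 ∨ α = 2 := by omega
    rcases hα with rfl | rfl | rfl
    · have h := MM_zero_left hX β
      refine ⟨nondeg_of_empty h, ?_, fun _ => ?_, fun i j hi _ => by omega⟩
      · rw [MM_of_empty h]; exact Set.finite_empty
      · rw [MM_of_empty h, Set.ncard_empty]
    · have hβ : β = 3 := by omega
      subst hβ
      have hmem : pl (1 : ℝ[X]) (C (1 / 2) * X ^ 2) ∈ MM X 1 3 := by
        refine ⟨(1, C (1 / 2) * X ^ 2), ⟨?_, ?_, ?_⟩, rfl⟩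
        · rw [mem_degreeLT]
          exact lt_of_le_of_lt degree_one_le (by norm_num)
        · rw [mem_degreeLT]
          exact lt_of_le_of_lt (degree_C_mul_X_pow_le 2 _) (by norm_num)
        · simp only [wronskian, derivative_one, derivative_C_mul_X_pow]
          norm_num
      have hset : MM X 1 3 = {pl (1 : ℝ[X]) (C (1 / 2) * X ^ 2)} :=
        (MM_one_subsingleton hX 3).eq_singleton_of_mem hmem
      refine ⟨nondeg_one hX 3, ?_, fun h => absurd h (by decide), fun i j hi hj => ?_⟩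
      · rw [hset]; exact Set.finite_singleton _
      · have hi0 : i = 0 := by omega
        have hj1 : j = 1 := by omega
        subst hi0 hj1
        rw [hset, Set.ncard_singleton]
        simp [bal]
    · have hβ : β = 2 := by omega
      subst hβ
      have h : Pr (X : ℝ[X]) 2 2 = ∅ := MM_diag hX (by rw [natDegree_X])
      refine ⟨nondeg_of_empty h, ?_, fun _ => ?_, fun i j hi _ => by omega⟩
      · rw [MM_of_empty h]; exact Set.finite_empty
      · rw [MM_of_empty h, Set.ncard_empty]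

theorem bal_diag (i : ℕ) (hi : 1 ≤ i) : bal i i = 0 := by
  obtain ⟨k, rfl⟩ : ∃ k, i = k + 1 := ⟨i - 1, by omega⟩
  rw [bal, if_neg (by omega), show k + 1 + (k + 1) - 1 = 2 * k + 1 by omega, Nat.add_sub_cancel]
  have : (2 * k + 1).choose (k + 1) = (2 * k + 1).choose k := by
    apply Nat.choose_symm_of_eq_add
    ring
  rw [this, sub_self]

theorem bal_zero (j : ℕ) : bal 0 j = 1 := by
  rw [bal, if_pos rfl, Nat.choose_zero_right]
  norm_num

theorem bal_succ (i j : ℕ) (hj : 1 ≤ j) : bal (i + 1) (j + 1) = bal (i + 1) j + bal i (j + 1) := by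
  obtain ⟨k, rfl⟩ : ∃ k, j = k + 1 := ⟨j - 1, by omega⟩
  rcases Nat.eq_zero_or_pos i with rfl | hi
  · rw [bal_zero, bal, bal, if_neg (by omega), if_neg (by omega)]
    simp only [zero_add, Nat.choose_one_right, Nat.sub_self, Nat.choose_zero_right]
    push_cast
    have e1 : 1 + (k + 1 + 1) - 1 = k + 2 := by omega
    have e2 : 1 + (k + 1) - 1 = k + 1 := by omega
    rw [e1, e2]
    push_cast
    ring
  · obtain ⟨l, rfl⟩ : ∃ l, i = l + 1 := ⟨i - 1, by omega⟩
    rw [bal, bal, bal, if_neg (by omega), if_neg (by omega), if_neg (by omega)]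
    have e1 : l + 1 + 1 + (k + 1 + 1) - 1 = (l + k + 2) + 1 := by omega
    have e2 : l + 1 + 1 + (k + 1) - 1 = l + k + 2 := by omega
    have e3 : l + 1 + (k + 1 + 1) - 1 = l + k + 2 := by omega
    rw [e1, e2, e3, Nat.add_sub_cancel, Nat.add_sub_cancel]
    have h1 := Nat.choose_succ_succ (l + k + 2) (l + 1)
    have h2 := Nat.choose_succ_succ (l + k + 2) l
    simp only [Nat.succ_eq_add_one] at h1 h2
    rw [h1, h2]
    push_cast
    ring

/-- The roots of `1 + ε² X²` are no roots of `f` for small `ε`. -/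
theorem separable_pert {f : ℝ[X]} (hf : f.Separable) :
    ∀ᶠ ε in 𝓝[>] (0 : ℝ), (pert f ε).Separable := by
  have hf0 : f ≠ 0 := hf.ne_zero
  set g : ℂ[X] := f.map (algebraMap ℝ ℂ) with hg
  have hg0 : g ≠ 0 := by
    rw [hg, Polynomial.map_ne_zero_iff (algebraMap ℝ ℂ).injective]
    exact hf0
  obtain ⟨S, hS⟩ : ∃ S : Set ℝ, S = {ε : ℝ | ε ≠ 0 ∧ g.IsRoot (Complex.I * (ε : ℂ)⁻¹)} := ⟨_, rfl⟩
  have hfin : S.Finite := by
    have h1 : {z : ℂ | g.IsRoot z}.Finite := by
      have := (g.roots.toFinset).finite_toSet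
      refine this.subset fun z hz => ?_
      rw [Finset.mem_coe, Multiset.mem_toFinset]
      exact (mem_roots hg0).2 hz
    refine Set.Finite.of_finite_image (f := fun ε : ℝ => Complex.I * (ε : ℂ)⁻¹)
      (h1.subset ?_) ?_
    · rintro z ⟨ε, hε, rfl⟩
      rw [hS] at hε
      exact hε.2
    · intro a _ b _ hab
      have h2 := mul_left_cancel₀ Complex.I_ne_zero hab
      exact_mod_cast inv_injective h2
  have hmem : Sᶜ ∈ 𝓝 (0 : ℝ) := by
    refine hfin.isClosed.isOpen_compl.mem_nhds ?_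
    rw [hS]
    simp
  have h1 : ∀ᶠ ε in 𝓝[>] (0 : ℝ), ε ∉ S := nhdsWithin_le_nhds hmem
  have h1' : ∀ᶠ ε in 𝓝[>] (0 : ℝ), -ε ∉ S := by
    have h2 : Tendsto (fun ε : ℝ => -ε) (𝓝 0) (𝓝 0) := by
      have := (continuous_neg (G := ℝ)).tendsto 0
      rwa [neg_zero] at this
    exact nhdsWithin_le_nhds (h2.eventually hmem)
  have hpos : ∀ᶠ ε in 𝓝[>] (0 : ℝ), 0 < ε := self_mem_nhdsWithin
  filter_upwards [h1, h1', hpos] with ε h2 h2' h3
  have hq0 : (1 + C (ε ^ 2) * X ^ 2 : ℝ[X]).Separable := by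
    rw [separable_def']
    refine ⟨1, C (-1 / 2) * X, ?_⟩
    simp only [derivative_add, derivative_one, derivative_C_mul_X_pow]
    have : (C (-1 / 2) * X : ℝ[X]) * (0 + C (ε ^ 2 * (2 : ℕ)) * X ^ (2 - 1)) =
        - (C (ε ^ 2) * X ^ 2) := by
      have e : (C (ε ^ 2 * (2 : ℕ)) : ℝ[X]) = C (ε ^ 2) * C 2 := by rw [← C_mul]; norm_num
      have e2 : (C (-1 / 2) * C 2 : ℝ[X]) = -1 := by rw [← C_mul]; norm_num
      rw [e, zero_add]
      calc _ = (C (-1 / 2) * C 2) * (C (ε ^ 2) * X ^ 2) := by ring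
        _ = _ := by rw [e2]; ring
    rw [this]
    ring
  refine Separable.mul hf hq0 ?_
  -- coprimality
  rw [isCoprime_iff_aeval_ne_zero_of_isAlgClosed ℝ ℂ]
  intro a
  by_contra hcon
  push Not at hcon
  obtain ⟨ha, hb⟩ := hcon
  have hε : (ε : ℂ) ≠ 0 := by exact_mod_cast h3.ne'
  have hroot : g.IsRoot a := by
    rw [IsRoot, hg, eval_map_algebraMap]
    exact ha
  have hb' : 1 + (ε : ℂ) ^ 2 * a ^ 2 = 0 := by
    simpa using hb
  have hc : (a - Complex.I * (ε : ℂ)⁻¹) * (a - Complex.I * ((-ε : ℝ) : ℂ)⁻¹) = 0 := by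
    have hI : Complex.I ^ 2 = -1 := Complex.I_sq
    have e : (a - Complex.I * (ε : ℂ)⁻¹) * (a - Complex.I * ((-ε : ℝ) : ℂ)⁻¹) =
        a ^ 2 - Complex.I ^ 2 * ((ε : ℂ)⁻¹) ^ 2 := by
      push_cast
      rw [inv_neg]
      ring
    rw [e, hI]
    field_simp
    linear_combination hb'
  rcases mul_eq_zero.1 hc with h | h
  · apply h2
    rw [hS]
    refine ⟨h3.ne', ?_⟩
    rwa [← sub_eq_zero.1 h]
  · apply h2'
    rw [hS]
    refine ⟨neg_ne_zero.2 h3.ne', ?_⟩
    rwa [← sub_eq_zero.1 h]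

theorem good_succ {m : ℕ} {f : ℝ[X]} (h : Good m f) : ∃ g, Good (m + 1) g := by
  obtain ⟨hdeg, hlc, hodd, hsep, hcount⟩ := h
  have hf : f ≠ 0 := hsep.ne_zero
  have hpos : ∀ᶠ ε in 𝓝[>] (0 : ℝ), 0 < ε := self_mem_nhdsWithin
  have hdegε : ∀ ε : ℝ, 0 < ε → (pert f ε).natDegree = 2 * (m + 1) + 1 := by
    intro ε hε
    have h1 : (pert f ε).coeff (f.natDegree + 2) ≠ 0 := by
      rw [coeff_pert_top]
      positivity
    have h2 : (pert f ε).natDegree ≤ f.natDegree + 2 := by
      have h3 := pert_mem (f := f) (n := f.natDegree + 3) (by omega) ε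
      rw [mem_degreeLT] at h3
      have h4 : pert f ε ≠ 0 := by
        rintro h0
        rw [h0, coeff_zero] at h1
        exact h1 rfl
      rw [degree_eq_natDegree h4] at h3
      have : (pert f ε).natDegree < f.natDegree + 3 := by exact_mod_cast h3
      omega
    rw [natDegree_eq_of_le_of_coeff_ne_zero h2 h1, hdeg]
    ring
  have key : ∀ᶠ ε in 𝓝[>] (0 : ℝ), ∀ x ∈ Finset.HasAntidiagonal.antidiagonal (2 * (m + 1) + 4),
      x.1 ≤ x.2 → Nondeg (pert f ε) x.1 x.2 ∧ (MM (pert f ε) x.1 x.2).Finite ∧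
        (Even x.1 → (MM (pert f ε) x.1 x.2).ncard = 0) ∧
        ∀ i j, x.1 = 2 * i + 1 → x.2 = 2 * j + 1 → ((MM (pert f ε) x.1 x.2).ncard : ℤ) = bal i j := by
    rw [Filter.eventually_all_finset]
    rintro ⟨α, β⟩ hx
    rw [Finset.HasAntidiagonal.mem_antidiagonal] at hx
    simp only at hx ⊢
    rcases Nat.lt_or_ge β α with hlt | hαβ
    · exact Filter.Eventually.of_forall fun ε h => absurd h (by omega)
    rcases Nat.eq_zero_or_pos α with rfl | hα
    · filter_upwards [hpos] with ε hε _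
      have h0 : pert f ε ≠ 0 := by
        intro h0
        have := hdegε ε hε
        rw [h0, natDegree_zero] at this
        omega
      have h := MM_zero_left h0 β
      refine ⟨nondeg_of_empty h, ?_, fun _ => ?_, fun i j hi _ => by omega⟩
      · rw [MM_of_empty h]; exact Set.finite_empty
      · rw [MM_of_empty h, Set.ncard_empty]
    rcases eq_or_lt_of_le hαβ with rfl | hlt
    · filter_upwards [hpos] with ε hε _
      have h0 : pert f ε ≠ 0 := by
        intro h0
        have := hdegε ε hε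
        rw [h0, natDegree_zero] at this
        omega
      have h := MM_diag h0 (α := α) (by rw [hdegε ε hε]; omega)
      refine ⟨nondeg_of_empty h, ?_, fun _ => ?_, fun i j hi hj => ?_⟩
      · rw [MM_of_empty h]; exact Set.finite_empty
      · rw [MM_of_empty h, Set.ncard_empty]
      · have : i = j := by omega
        subst this
        rw [MM_of_empty h, Set.ncard_empty, bal_diag i (by omega)]
        rfl
    · -- the main case
      obtain ⟨β', rfl⟩ : ∃ β', β = β' + 2 := ⟨β - 2, by omega⟩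
      obtain ⟨a1, a2, a3, a4⟩ := hcount α β' (by omega) (by omega)
      have hpar : Even (α + β') := ⟨m + 2, by omega⟩
      rcases Nat.lt_or_ge α 2 with hα1 | hα2
      · have hα1' : α = 1 := by omega
        subst hα1'
        have hemp := MM_zero_left hf (β' + 2)
        have hst := step (f := f) (α := 1) (β := β') le_rfl (by omega) hpar (by omega) hlc hodd a1
          (nondeg_of_empty hemp) a2 (by
            change (MM f 0 (β' + 2)).Finite
            rw [MM_of_empty hemp]; exact Set.finite_empty)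
        filter_upwards [hst] with ε hε _
        refine ⟨hε.2.2, hε.1, fun h => absurd h (by decide), fun i j hi hj => ?_⟩
        have hi0 : i = 0 := by omega
        subst hi0
        have e0 : (MM f (1 - 2) (β' + 2)).ncard = 0 := by
          change (MM f 0 (β' + 2)).ncard = 0
          rw [MM_of_empty hemp, Set.ncard_empty]
        rw [hε.2.1, e0, add_zero, a4 0 (j - 1) (by omega) (by omega), bal_zero, bal_zero]
      · obtain ⟨b1, b2, b3, b4⟩ := hcount (α - 2) (β' + 2) (by omega) (by omega)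
        have hst := step (f := f) (α := α) (β := β') hα (by omega) hpar (by omega) hlc hodd a1
          b1 a2 b2
        filter_upwards [hst] with ε hε _
        refine ⟨hε.2.2, hε.1, fun h => ?_, fun i j hi hj => ?_⟩
        · rw [hε.2.1, a3 h, b3 ((Nat.even_sub hα2).2 ⟨fun _ => by decide, fun _ => h⟩)]
        · obtain ⟨i', rfl⟩ : ∃ i', i = i' + 1 := ⟨i - 1, by omega⟩
          obtain ⟨j', rfl⟩ : ∃ j', j = j' + 1 := ⟨j - 1, by omega⟩
          rw [hε.2.1, bal_succ i' j' (by omega), ← a4 (i' + 1) j' (by omega) (by omega),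
            ← b4 i' (j' + 1) (by omega) (by omega)]
          push_cast
          ring
  obtain ⟨ε, hε, hsepε, hkey⟩ := (hpos.and ((separable_pert hsep).and key)).exists
  refine ⟨pert f ε, hdegε ε hε, ?_, coeff_pert_even hodd ε, hsepε, ?_⟩
  · rw [leadingCoeff, hdegε ε hε, show 2 * (m + 1) + 1 = f.natDegree + 2 by omega, coeff_pert_top]
    positivity
  · intro α β hαβ hsum
    exact hkey (α, β) (Finset.HasAntidiagonal.mem_antidiagonal.2 hsum) hαβ

theorem exists_good : ∀ m : ℕ, ∃ f, Good m f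
  | 0 => ⟨X, good_zero⟩
  | m + 1 => by
    obtain ⟨f, hf⟩ := exists_good m
    exact good_succ hf

end Pool.Agent.Helper46.WR
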