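import Pool.Agent.Helper46.WR.Alg

/-!
# Sign condition, classification of the limits, simple points
-/

open Polynomial

namespace Pool.Agent.Helper46.WR

theorem MM_zero_left {f : ℝ[X]} (hf : f ≠ 0) (β : ℕ) : Pr f 0 β = ∅ := by
  rw [Set.eq_empty_iff_forall_notMem]
  rintro ⟨p, q⟩ ⟨h1, -, h3⟩
  have : p = 0 := by
    ext i
    exact coeff_zero_of_mem h1 (Nat.zero_le i)
  simp only [this, wronskian_zero_left] at h3
  exact hf h3.symm

theorem MM_diag {f : ℝ[X]} {α : ℕ} (hf : f ≠ 0) (hdeg : f.natDegree + 3 = α + α) :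
    Pr f α α = ∅ := by
  rw [Set.eq_empty_iff_forall_notMem]
  rintro ⟨p, q⟩ ⟨h1, h2, h3⟩
  obtain ⟨a, rfl⟩ : ∃ a, α = a + 1 := ⟨α - 1, by omega⟩
  have h4 := wr_top1 h1 h2 (n := f.natDegree) (by omega)
  simp only at h3
  rw [h3, sub_self, zero_mul] at h4
  exact hf (leadingCoeff_eq_zero.1 h4)

/-- The sign condition. -/
theorem sign {p q : ℝ[X]} {a b : ℕ} (hab : a + 2 ≤ b) (hp : p ∈ degreeLT ℝ (a + 2))
    (hq : q ∈ degreeLT ℝ (b + 2)) (h1 : 0 < (wronskian p q).coeff (a + b + 1))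
    (h0 : (wronskian p q).coeff (a + b) = 0) : pl p q a b ≤ 0 := by
  have hab' : ((a : ℝ) + 2) ≤ b := by exact_mod_cast hab
  rw [wr_top1 (a := a + 1) (b := b + 1) hp hq (by ring)] at h1
  rw [wr_top2 hp hq] at h0
  rw [pl, coeff_zero_of_mem hp hab, zero_mul, sub_zero]
  set x := p.coeff (a + 1) * q.coeff b
  set y := p.coeff a * q.coeff (b + 1)
  have hP : 0 < p.coeff (a + 1) * q.coeff (b + 1) := by
    push_cast at h1
    by_contra hcon
    push Not at hcon
    nlinarith
  have e : p.coeff a * q.coeff b * (p.coeff (a + 1) * q.coeff (b + 1)) = x * y := by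
    simp only [x, y]
    ring
  have hxy : x * y ≤ 0 := by
    have hc : (0 : ℝ) < b - (a + 1) := by linarith
    have hx : x = -((b + 1 - a) / (b - (a + 1))) * y := by
      field_simp
      linarith
    rw [hx]
    have : 0 ≤ ((b : ℝ) + 1 - a) / (b - (a + 1)) := div_nonneg (by linarith) hc.le
    nlinarith [mul_nonneg this (mul_self_nonneg y)]
  by_contra hcon
  push Not at hcon
  have := mul_pos hcon hP
  rw [e] at this
  linarith

/-- The possible limits. -/
theorem classify {f : ℝ[X]} {α β : ℕ} (hα : 1 ≤ α) (hαβ : α ≤ β)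
    (hdeg : f.natDegree + 3 = α + β) (hlc : 0 < f.leadingCoeff) {p q : ℝ[X]}
    (hp : p ∈ degreeLT ℝ α) (hq : q ∈ degreeLT ℝ (β + 2)) (hW : wronskian p q = f)
    (hs : 2 ≤ α → pl p q (α - 2) β ≤ 0) : q ∈ degreeLT ℝ β ∨ p ∈ degreeLT ℝ (α - 2) := by
  have hz : ∀ i, α + β - 3 < i → f.coeff i = 0 := fun i hi =>
    coeff_eq_zero_of_natDegree_lt (by omega)
  rcases eq_or_lt_of_le hα with h1 | h1
  · -- `α = 1`
    subst h1
    left
    have h2 := wr_top1 (a := 0) (b := β + 1) hp hq (n := β) (by omega)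
    rw [hW, hz β (by omega)] at h2
    have h0 : p.coeff 0 ≠ 0 := by
      intro h0
      have : p = 0 := by
        ext i
        rcases Nat.eq_zero_or_pos i with rfl | hi
        · rw [h0, coeff_zero]
        · rw [coeff_zero_of_mem hp hi, coeff_zero]
      rw [this, wronskian_zero_left] at hW
      rw [← hW, leadingCoeff_zero] at hlc
      exact lt_irrefl _ hlc
    have h3 : q.coeff (β + 1) = 0 := by
      have hb : ((β + 1 : ℕ) : ℝ) - (0 : ℕ) ≠ 0 := by
        have : (0 : ℝ) ≤ β := Nat.cast_nonneg β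
        push_cast
        intro h
        linarith
      have := (mul_eq_zero.1 h2.symm).resolve_left hb
      exact (mul_eq_zero.1 this).resolve_left h0
    have hq1 : q ∈ degreeLT ℝ (β + 1) := mem_of_coeff_zero hq h3
    have h4 := wr_top1 (a := 0) (b := β) hp hq1 (n := β - 1) (by omega)
    rw [hW, hz (β - 1) (by omega)] at h4
    have hb : (β : ℝ) - (0 : ℕ) ≠ 0 := by
      have : (0 : ℝ) < β := by exact_mod_cast hαβ
      push_cast
      linarith
    have h5 := (mul_eq_zero.1 ((mul_eq_zero.1 h4.symm).resolve_left hb)).resolve_left h0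
    exact mem_of_coeff_zero hq1 h5
  · obtain ⟨a, rfl⟩ : ∃ a, α = a + 2 := ⟨α - 2, by omega⟩
    rw [Nat.add_sub_cancel] at hs ⊢
    have hab : ((a : ℝ) + 2) ≤ β := by exact_mod_cast hαβ
    have h2 := wr_top1 (a := a + 1) (b := β + 1) hp hq (n := a + β + 1) (by omega)
    rw [hW, hz _ (by omega)] at h2
    have h3 := wr_top2 hp hq
    rw [hW, hz _ (by omega)] at h3
    have h4 : p.coeff (a + 1) * q.coeff (β + 1) = 0 := by
      refine (mul_eq_zero.1 h2.symm).resolve_left ?_
      push_cast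
      intro h
      linarith
    rcases eq_or_ne (p.coeff (a + 1)) 0 with h5 | h5
    · have hp1 : p ∈ degreeLT ℝ (a + 1) := mem_of_coeff_zero hp h5
      rw [h5, zero_mul, mul_zero, zero_add] at h3
      have h6 : p.coeff a * q.coeff (β + 1) = 0 := by
        refine (mul_eq_zero.1 h3.symm).resolve_left ?_
        intro h
        linarith
      rcases mul_eq_zero.1 h6 with h7 | h7
      · right
        exact mem_of_coeff_zero hp1 h7
      · exfalso
        have hq1 : q ∈ degreeLT ℝ (β + 1) := mem_of_coeff_zero hq h7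
        have h8 := wr_top1 hp1 hq1 (n := f.natDegree) (by omega)
        rw [hW] at h8
        have h9 := hs (by omega)
        rw [pl, coeff_zero_of_mem hp hαβ, zero_mul, sub_zero] at h9
        change f.leadingCoeff = _ at h8
        have : ((β : ℝ) - a) * (p.coeff a * q.coeff β) ≤ 0 :=
          mul_nonpos_of_nonneg_of_nonpos (by linarith) h9
        linarith
    · left
      have h6 : q.coeff (β + 1) = 0 := (mul_eq_zero.1 h4).resolve_left h5
      rw [h6, mul_zero, mul_zero, add_zero] at h3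
      have h7 : p.coeff (a + 1) * q.coeff β = 0 := by
        refine (mul_eq_zero.1 h3.symm).resolve_left ?_
        intro h
        linarith
      exact mem_of_coeff_zero (mem_of_coeff_zero hq h6) ((mul_eq_zero.1 h7).resolve_left h5)

/-- Leading coefficients of a pair of exact type `(α, β)`. -/
theorem top_ne {f : ℝ[X]} {α β : ℕ} (hf : f ≠ 0) (hdeg : f.natDegree + 3 = α + β) {p q : ℝ[X]}
    (hp : p ∈ degreeLT ℝ α) (hq : q ∈ degreeLT ℝ β) (hW : wronskian p q = f) :
    1 ≤ α ∧ 1 ≤ β ∧ α ≠ β ∧ p.coeff (α - 1) ≠ 0 ∧ q.coeff (β - 1) ≠ 0 := by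
  have hα : 1 ≤ α := by
    by_contra h
    have : α = 0 := by omega
    subst this
    have : p = 0 := by
      ext i
      exact coeff_zero_of_mem hp (Nat.zero_le i)
    rw [this, wronskian_zero_left] at hW
    exact hf hW.symm
  have hβ : 1 ≤ β := by
    by_contra h
    have : β = 0 := by omega
    subst this
    have : q = 0 := by
      ext i
      exact coeff_zero_of_mem hq (Nat.zero_le i)
    rw [this, wronskian_zero_right] at hW
    exact hf hW.symm
  obtain ⟨a, rfl⟩ : ∃ a, α = a + 1 := ⟨α - 1, by omega⟩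
  obtain ⟨b, rfl⟩ : ∃ b, β = b + 1 := ⟨β - 1, by omega⟩
  have h := wr_top1 hp hq (n := f.natDegree) (by omega)
  rw [hW] at h
  have h0 : ((b : ℝ) - a) * (p.coeff a * q.coeff b) ≠ 0 := by
    rw [← h]
    exact leadingCoeff_ne_zero.2 hf
  refine ⟨hα, hβ, ?_, ?_, ?_⟩
  · intro hab
    have : a = b := by omega
    rw [this, sub_self, zero_mul] at h0
    exact h0 rfl
  · rw [Nat.add_sub_cancel]
    intro hz
    rw [hz, zero_mul, mul_zero] at h0
    exact h0 rfl
  · rw [Nat.add_sub_cancel]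
    intro hz
    rw [hz, mul_zero, mul_zero] at h0
    exact h0 rfl

theorem disj {f : ℝ[X]} {α β : ℕ} (hα : 1 ≤ α) (hαβ : α ≤ β) (hf : f ≠ 0)
    (hdeg : f.natDegree + 3 = α + β) : Disjoint (MM f α β) (MM f (α - 2) (β + 2)) := by
  rw [Set.disjoint_left]
  rintro M ⟨⟨p, q⟩, ⟨h1, h2, h3⟩, rfl⟩ ⟨⟨p', q'⟩, ⟨h1', h2', h3'⟩, h4⟩
  simp only at h1 h2 h3 h1' h2' h3' h4
  rcases le_or_gt α 2 with hα2 | hα2
  · have : α - 2 = 0 := by omega
    rw [this] at h1'
    have h5 : ((p', q') : ℝ[X] × ℝ[X]) ∈ Pr f 0 (β + 2) := ⟨h1', h2', h3'⟩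
    rw [MM_zero_left hf] at h5
    exact h5
  · obtain ⟨-, -, -, h5, h6⟩ := top_ne hf (α := α - 2) (β := β + 2) (by omega) h1' h2' h3'
    have h7 := congrFun (congrFun h4 (α - 2 - 1)) (β + 2 - 1)
    rw [pl, pl, coeff_zero_of_mem h2 (by omega), coeff_zero_of_mem h1 (i := β + 2 - 1) (by omega),
      coeff_zero_of_mem h1' (i := β + 2 - 1) (by omega), mul_zero, zero_mul, zero_mul, sub_zero,
      sub_zero] at h7
    rcases mul_eq_zero.1 h7 with h | h
    · exact h5 h
    · exact h6 h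

theorem lift1 {f : ℝ[X]} {α β : ℕ} (hαβ : α ≤ β) (hf : f ≠ 0)
    (hdeg : f.natDegree + 3 = α + β) {p q : ℝ[X]} (hp : p ∈ degreeLT ℝ α)
    (hq : q ∈ degreeLT ℝ β) (hW : wronskian p q = f) (h : ND α β p q) : ND α (β + 2) p q := by
  intro u hu v hv c hc
  obtain ⟨hα, hβ, hne, htp, htq⟩ := top_ne hf hdeg hp hq hW
  refine h u hu v ?_ c hc
  obtain ⟨a, rfl⟩ : ∃ a, α = a + 1 := ⟨α - 1, by omega⟩
  rw [Nat.add_sub_cancel] at htp
  have hab : ((a : ℝ) + 1) ≤ β := by exact_mod_cast hαβ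
  have key : ∀ i, a + 1 + β - 3 < i → (wronskian p v).coeff i = 0 := by
    intro i hi
    have h1 : wronskian p v = c • wronskian p q - wronskian u q := by rw [← hc]; abel
    rw [h1, hW, coeff_sub, coeff_smul, coeff_eq_zero_of_natDegree_lt (p := f) (by omega),
      coeff_zero_of_mem (wr_mem hu hq) (by omega), smul_zero, sub_zero]
  have h2 := wr_top1 (a := a) (b := β + 1) hp hv (n := a + β) (by omega)
  rw [key _ (by omega)] at h2
  have h3 : v.coeff (β + 1) = 0 := by
    refine (mul_eq_zero.1 ((mul_eq_zero.1 h2.symm).resolve_left ?_)).resolve_left htp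
    push_cast
    intro h
    linarith
  have hv1 : v ∈ degreeLT ℝ (β + 1) := mem_of_coeff_zero hv h3
  have h4 := wr_top1 (a := a) (b := β) hp hv1 (n := a + β - 1) (by omega)
  rw [key _ (by omega)] at h4
  have h5 : v.coeff β = 0 := by
    refine (mul_eq_zero.1 ((mul_eq_zero.1 h4.symm).resolve_left ?_)).resolve_left htp
    intro h
    linarith
  exact mem_of_coeff_zero hv1 h5

theorem lift2 {f : ℝ[X]} {α β : ℕ} (hαβ : α ≤ β) (hf : f ≠ 0)
    (hdeg : f.natDegree + 3 = α + β) {p q : ℝ[X]} (hp : p ∈ degreeLT ℝ (α - 2))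
    (hq : q ∈ degreeLT ℝ (β + 2)) (hW : wronskian p q = f) (h : ND (α - 2) (β + 2) p q) :
    ND α (β + 2) p q := by
  intro u hu v hv c hc
  have hα : 3 ≤ α := by
    by_contra hcon
    have h0 : α - 2 = 0 := by omega
    rw [h0] at hp
    have h5 : ((p, q) : ℝ[X] × ℝ[X]) ∈ Pr f 0 (β + 2) := ⟨hp, hq, hW⟩
    rw [MM_zero_left hf] at h5
    exact h5
  obtain ⟨a, rfl⟩ : ∃ a, α = a + 3 := ⟨α - 3, by omega⟩
  have e : a + 3 - 2 = a + 1 := by omega
  rw [e] at hp h
  obtain ⟨-, -, -, htp, htq⟩ := top_ne hf (α := a + 1) (β := β + 2) (by omega) hp hq hW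
  have e2 : β + 2 - 1 = β + 1 := by omega
  rw [e2] at htq
  have hab : ((a : ℝ) + 3) ≤ β := by exact_mod_cast hαβ
  have key : ∀ i, a + β < i → (wronskian u q).coeff i = 0 := by
    intro i hi
    have h1 : wronskian u q = c • wronskian p q - wronskian p v := by rw [← hc]; abel
    rw [h1, hW, coeff_sub, coeff_smul, coeff_eq_zero_of_natDegree_lt (p := f) (by omega),
      coeff_zero_of_mem (wr_mem hp hv) (by omega), smul_zero, sub_zero]
  refine h u ?_ v hv c hc
  have h2 := wr_top1 (a := a + 2) (b := β + 1) hu hq (n := a + β + 2) (by omega)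
  rw [key _ (by omega)] at h2
  have h3 : u.coeff (a + 2) = 0 := by
    refine (mul_eq_zero.1 ((mul_eq_zero.1 h2.symm).resolve_left ?_)).resolve_right htq
    push_cast
    intro h
    linarith
  have hu1 : u ∈ degreeLT ℝ (a + 2) := mem_of_coeff_zero hu h3
  have h4 := wr_top1 (a := a + 1) (b := β + 1) hu1 hq (n := a + β + 1) (by omega)
  rw [key _ (by omega)] at h4
  have h5 : u.coeff (a + 1) = 0 := by
    refine (mul_eq_zero.1 ((mul_eq_zero.1 h4.symm).resolve_left ?_)).resolve_right htq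
    push_cast
    intro h
    linarith
  exact mem_of_coeff_zero hu1 h5

end Pool.Agent.Helper46.WR
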