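import Pool.Agent.Helper46.WR.Compact
import Pool.Agent.Helper46.WR.IFT

/-!
# The fibres near a simple point
-/

open Polynomial Filter Topology

namespace Pool.Agent.Helper46.WR

theorem wr_comm (p q : ℝ[X]) : wronskian p q = -wronskian q p := (wronskian_neg_eq q p).symm

/-- Simple points do not depend on the basis. -/
theorem ND.change {α β : ℕ} (hαβ : α ≤ β) {p q : ℝ[X]} (h : ND α β p q) {s t : ℝ} (r : ℝ)
    (hs : s ≠ 0) (ht : t ≠ 0) : ND α β (s • p) (t • q + r • p) := by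
  intro u hu v hv c hc
  have e : wronskian (t • u) q + wronskian p (s • v - r • u) = (c * s * t) • wronskian p q := by
    have h1 : wronskian (t • u) q + wronskian p (s • v - r • u) =
        wronskian u (t • q + r • p) + wronskian (s • p) v := by
      rw [wr_sub_right, wronskian_add_right, wr_smul_left, wr_smul_left, wr_smul_right,
        wr_smul_right, wr_smul_right, wr_smul_right, wr_comm u p]
      module
    rw [h1, hc, wronskian_add_right, wr_smul_left, wr_smul_left, wr_smul_right, wr_smul_right,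
      wronskian_self_eq_zero]
    module
  obtain ⟨⟨a, ha⟩, b, d, hbd⟩ := h (t • u) (Submodule.smul_mem _ _ hu) (s • v - r • u)
    (Submodule.sub_mem _ (Submodule.smul_mem _ _ hv)
      (Submodule.smul_mem _ _ (degreeLT_mono hαβ hu))) _ e
  have hu' : u = (a / t) • p := by
    have : t⁻¹ • t • u = t⁻¹ • a • p := by rw [ha]
    rw [smul_smul, inv_mul_cancel₀ ht, one_smul, smul_smul] at this
    rw [this]
    congr 1
    ring
  have hv' : v = (s⁻¹ * (b + r * (a / t))) • p + (s⁻¹ * d) • q := by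
    have h1 : s • v = b • p + d • q + r • u := by rw [← hbd]; abel
    have h2 : s⁻¹ • s • v = s⁻¹ • (b • p + d • q + r • u) := by rw [h1]
    rw [smul_smul, inv_mul_cancel₀ hs, one_smul, hu'] at h2
    rw [h2]
    module
  refine ⟨⟨a / t / s, ?_⟩, s⁻¹ * (s⁻¹ * (b + r * (a / t)) - s⁻¹ * d * t⁻¹ * r), s⁻¹ * d * t⁻¹, ?_⟩
  · rw [hu', smul_smul, div_mul_cancel₀ _ hs]
  · rw [hv', smul_add, smul_smul, smul_smul, smul_smul]
    have h1 : s⁻¹ * d * t⁻¹ * t = s⁻¹ * d := by field_simp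
    have h2 : s⁻¹ * (s⁻¹ * (b + r * (a / t)) - s⁻¹ * d * t⁻¹ * r) * s =
      s⁻¹ * (b + r * (a / t)) - s⁻¹ * d * t⁻¹ * r := by field_simp
    rw [h1, h2]
    module

section
variable {α β e1 e2 : ℕ}

/-- Coordinates near a plane with nonzero Plücker coordinate `(e1, e2)`. -/
noncomputable def ch (α β e1 e2 : ℕ) (M : ℕ → ℕ → ℝ) : (Fin α → ℝ) × (Fin β → ℝ) × ℝ :=
  (fun i => M i e2 / M e1 e2, fun j => M e1 j / M e1 e2, 1 / M e1 e2)

theorem ch_spec (h2 : α ≤ e2) (h3 : e2 < β) {p q : ℝ[X]} (hp : p ∈ degreeLT ℝ α)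
    (hq : q ∈ degreeLT ℝ β) (hM : pl p q e1 e2 ≠ 0) :
    p.coeff e1 ≠ 0 ∧ q.coeff e2 ≠ 0 ∧ p = p.coeff e1 • tp (ch α β e1 e2 (pl p q)).1 ∧
      q = q.coeff e2 • tp (ch α β e1 e2 (pl p q)).2.1 +
        q.coeff e1 • tp (ch α β e1 e2 (pl p q)).1 ∧
      (ch α β e1 e2 (pl p q)).2.2 = 1 / (p.coeff e1 * q.coeff e2) ∧
      cf (ch α β e1 e2 (pl p q)).1 e1 = 1 ∧ cf (ch α β e1 e2 (pl p q)).2.1 e1 = 0 ∧
      cf (ch α β e1 e2 (pl p q)).2.1 e2 = 1 := by
  have hpe2 : p.coeff e2 = 0 := coeff_zero_of_mem hp h2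
  have hst : pl p q e1 e2 = p.coeff e1 * q.coeff e2 := by
    rw [pl, hpe2, zero_mul, sub_zero]
  have hst0 := hM
  rw [hst] at hst0
  have hs : p.coeff e1 ≠ 0 := left_ne_zero_of_mul hst0
  have ht : q.coeff e2 ≠ 0 := right_ne_zero_of_mul hst0
  have c1 : ∀ i, (tp (ch α β e1 e2 (pl p q)).1).coeff i = p.coeff i / p.coeff e1 := by
    intro i
    rw [coeff_tp, cf]
    split_ifs with hi
    · change pl p q i e2 / pl p q e1 e2 = _
      rw [hst, pl, hpe2, zero_mul, sub_zero]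
      field_simp
    · rw [coeff_zero_of_mem hp (not_lt.1 hi), zero_div]
  have c2 : ∀ j, (tp (ch α β e1 e2 (pl p q)).2.1).coeff j =
      (p.coeff e1 * q.coeff j - p.coeff j * q.coeff e1) / (p.coeff e1 * q.coeff e2) := by
    intro j
    rw [coeff_tp, cf]
    split_ifs with hj
    · change pl p q e1 j / pl p q e1 e2 = _
      rw [hst, pl]
    · rw [coeff_zero_of_mem hq (not_lt.1 hj),
        coeff_zero_of_mem hp ((h2.trans h3.le).trans (not_lt.1 hj))]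
      ring
  refine ⟨hs, ht, ?_, ?_, ?_, ?_, ?_, ?_⟩
  · ext i
    rw [coeff_smul, c1, smul_eq_mul]
    field_simp
  · ext j
    rw [coeff_add, coeff_smul, coeff_smul, c1, c2, smul_eq_mul, smul_eq_mul]
    field_simp
    ring
  · change 1 / pl p q e1 e2 = _
    rw [hst]
  · rw [← coeff_tp, c1, div_self hs]
  · rw [← coeff_tp, c2]
    ring
  · rw [← coeff_tp, c2, hpe2, zero_mul, sub_zero, div_self hst0]

/-- The system of equations. -/
noncomputable def Ph (α β e1 e2 : ℕ) (F : ℝ → ℝ[X])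
    (x : (Fin α → ℝ) × (Fin β → ℝ) × ℝ × ℝ) : (Fin (α + β - 2) → ℝ) × ℝ × ℝ × ℝ × ℝ :=
  (fun k => (wronskian (tp x.1) (tp x.2.1)).coeff k - x.2.2.1 * (F x.2.2.2).coeff k,
    cf x.1 e1, cf x.2.1 e1, cf x.2.1 e2, x.2.2.2)

theorem contDiff_cf {n : ℕ} {E : Type*} [NormedAddCommGroup E] [NormedSpace ℝ E]
    {g : E → Fin n → ℝ} (hg : ContDiff ℝ 1 g) (i : ℕ) : ContDiff ℝ 1 fun x => cf (g x) i := by
  unfold cf
  split_ifs with h
  · exact (contDiff_pi.1 hg) ⟨i, h⟩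
  · exact contDiff_const

theorem contDiff_Ph {F : ℝ → ℝ[X]} (hF : ∀ i, ContDiff ℝ 1 fun ε => (F ε).coeff i) :
    ContDiff ℝ 1 (Ph α β e1 e2 F) := by
  have f1 : ContDiff ℝ 1 fun x : (Fin α → ℝ) × (Fin β → ℝ) × ℝ × ℝ => x.1 := contDiff_fst
  have f2 : ContDiff ℝ 1 fun x : (Fin α → ℝ) × (Fin β → ℝ) × ℝ × ℝ => x.2.1 :=
    contDiff_fst.comp contDiff_snd
  have f3 : ContDiff ℝ 1 fun x : (Fin α → ℝ) × (Fin β → ℝ) × ℝ × ℝ => x.2.2.1 :=
    contDiff_fst.comp (contDiff_snd.comp contDiff_snd)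
  have f4 : ContDiff ℝ 1 fun x : (Fin α → ℝ) × (Fin β → ℝ) × ℝ × ℝ => x.2.2.2 :=
    contDiff_snd.comp (contDiff_snd.comp contDiff_snd)
  refine ContDiff.prodMk (contDiff_pi.2 fun k => ?_) ((contDiff_cf f1 e1).prodMk
    ((contDiff_cf f2 e1).prodMk ((contDiff_cf f2 e2).prodMk f4)))
  refine ContDiff.sub ?_ (f3.mul ((hF k).comp f4))
  simp only [coeff_wr, coeff_tp]
  exact ContDiff.sum fun y _ => contDiff_const.mul ((contDiff_cf f1 _).mul (contDiff_cf f2 _))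

theorem cf_add {n : ℕ} (u v : Fin n → ℝ) (i : ℕ) : cf (u + v) i = cf u i + cf v i := by
  rw [← coeff_tp, tp_add, coeff_add, coeff_tp, coeff_tp]

theorem cf_smul {n : ℕ} (c : ℝ) (v : Fin n → ℝ) (i : ℕ) : cf (c • v) i = c * cf v i := by
  rw [← coeff_tp, tp_smul, coeff_smul, coeff_tp, smul_eq_mul]

/-- The derivative in the directions with constant `ε`. -/
theorem fderiv_Ph {F : ℝ → ℝ[X]} (hF : ∀ i, ContDiff ℝ 1 fun ε => (F ε).coeff i)
    (x : (Fin α → ℝ) × (Fin β → ℝ) × ℝ × ℝ) (u : Fin α → ℝ) (v : Fin β → ℝ) (c : ℝ) :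
    fderiv ℝ (Ph α β e1 e2 F) x (u, v, c, 0) =
      ((fun k : Fin (α + β - 2) => (wronskian (tp u) (tp x.2.1) + wronskian (tp x.1) (tp v) -
        c • F x.2.2.2).coeff k, cf u e1, cf v e1, cf v e2, 0) :
          (Fin (α + β - 2) → ℝ) × ℝ × ℝ × ℝ × ℝ) := by
  set ℓ : (Fin (α + β - 2) → ℝ) × ℝ × ℝ × ℝ × ℝ :=
    (fun k => (wronskian (tp u) (tp x.2.1) + wronskian (tp x.1) (tp v) -
      c • F x.2.2.2).coeff k, cf u e1, cf v e1, cf v e2, 0) with hℓ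
  set w : (Fin (α + β - 2) → ℝ) × ℝ × ℝ × ℝ × ℝ :=
    (fun k => (wronskian (tp u) (tp v)).coeff k, 0, 0, 0, 0) with hw
  have h1 : HasFDerivAt (Ph α β e1 e2 F) (fderiv ℝ (Ph α β e1 e2 F) x) x :=
    ((contDiff_Ph hF).differentiable (by norm_num) x).hasFDerivAt
  have h2 : HasDerivAt (fun t : ℝ => x + t • ((u, v, c, 0) : (Fin α → ℝ) × (Fin β → ℝ) × ℝ × ℝ))
      (u, v, c, 0) 0 := by
    have := ((hasDerivAt_id (0 : ℝ)).smul_const
      ((u, v, c, 0) : (Fin α → ℝ) × (Fin β → ℝ) × ℝ × ℝ)).const_add x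
    simpa using this
  have h3 : HasDerivAt (fun t : ℝ => Ph α β e1 e2 F
      (x + t • ((u, v, c, 0) : (Fin α → ℝ) × (Fin β → ℝ) × ℝ × ℝ)))
      (fderiv ℝ (Ph α β e1 e2 F) x (u, v, c, 0)) 0 := by
    have h1' : HasFDerivAt (Ph α β e1 e2 F) (fderiv ℝ (Ph α β e1 e2 F) x)
        (x + (0 : ℝ) • ((u, v, c, 0) : (Fin α → ℝ) × (Fin β → ℝ) × ℝ × ℝ)) := by
      rw [zero_smul, add_zero]
      exact h1
    exact h1'.comp_hasDerivAt (0 : ℝ) h2
  have e : (fun t : ℝ => Ph α β e1 e2 F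
      (x + t • ((u, v, c, 0) : (Fin α → ℝ) × (Fin β → ℝ) × ℝ × ℝ))) =
      fun t => Ph α β e1 e2 F x + (t • ℓ + t ^ 2 • w) := by
    funext t
    obtain ⟨x1, x2, x3, x4⟩ := x
    simp only [Ph, hℓ, hw, Prod.smul_mk, Prod.mk_add_mk, add_zero, mul_zero, tp_add, tp_smul,
      cf_add, cf_smul, smul_eq_mul]
    refine Prod.ext ?_ rfl
    funext k
    simp only [Pi.add_apply, Pi.smul_apply, smul_eq_mul, wronskian_add_left, wronskian_add_right,
      wr_smul_left, wr_smul_right, coeff_add, coeff_sub, coeff_smul]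
    ring
  have h4 : HasDerivAt (fun t : ℝ => Ph α β e1 e2 F x + (t • ℓ + t ^ 2 • w)) ℓ 0 := by
    have a1 := (hasDerivAt_id (0 : ℝ)).smul_const ℓ
    have a2 := (hasDerivAt_pow 2 (0 : ℝ)).smul_const w
    have a3 := (a1.add a2).const_add (Ph α β e1 e2 F x)
    simpa using a3
  rw [e] at h3
  exact h3.unique h4

/-- The condition of injectivity. -/
def Inj (α β e1 e2 : ℕ) (F : ℝ → ℝ[X]) (x : (Fin α → ℝ) × (Fin β → ℝ) × ℝ × ℝ) : Prop :=
  ∀ (u : Fin α → ℝ) (v : Fin β → ℝ) (c : ℝ), cf u e1 = 0 → cf v e1 = 0 → cf v e2 = 0 →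
    wronskian (tp u) (tp x.2.1) + wronskian (tp x.1) (tp v) = c • F x.2.2.2 →
    u = 0 ∧ v = 0 ∧ c = 0

theorem inj_iff {F : ℝ → ℝ[X]} (hF : ∀ i, ContDiff ℝ 1 fun ε => (F ε).coeff i)
    (hN : ∀ ε, F ε ∈ degreeLT ℝ (α + β - 2)) (x : (Fin α → ℝ) × (Fin β → ℝ) × ℝ × ℝ) :
    Function.Injective (fderiv ℝ (Ph α β e1 e2 F) x) ↔ Inj α β e1 e2 F x := by
  constructor
  · intro h u v c hu hv1 hv2 hW
    have h1 : fderiv ℝ (Ph α β e1 e2 F) x (u, v, c, 0) = 0 := by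
      rw [fderiv_Ph hF, hu, hv1, hv2, hW, sub_self]
      simp only [coeff_zero]
      rfl
    have h2 := h (h1.trans (map_zero _).symm)
    simp only [Prod.mk_eq_zero] at h2
    exact ⟨h2.1, h2.2.1, h2.2.2.1⟩
  · intro h
    rw [injective_iff_map_eq_zero]
    rintro ⟨u, v, c, d⟩ h0
    have hd : d = 0 := by
      have h1 : HasFDerivAt (Ph α β e1 e2 F) (fderiv ℝ (Ph α β e1 e2 F) x) x :=
        ((contDiff_Ph hF).differentiable (by norm_num) x).hasFDerivAt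
      let L : ((Fin (α + β - 2) → ℝ) × ℝ × ℝ × ℝ × ℝ) →L[ℝ] ℝ :=
        (ContinuousLinearMap.snd ℝ ℝ ℝ).comp ((ContinuousLinearMap.snd ℝ ℝ (ℝ × ℝ)).comp
          ((ContinuousLinearMap.snd ℝ ℝ (ℝ × ℝ × ℝ)).comp
            (ContinuousLinearMap.snd ℝ (Fin (α + β - 2) → ℝ) (ℝ × ℝ × ℝ × ℝ))))
      let L' : ((Fin α → ℝ) × (Fin β → ℝ) × ℝ × ℝ) →L[ℝ] ℝ :=
        (ContinuousLinearMap.snd ℝ ℝ ℝ).comp ((ContinuousLinearMap.snd ℝ (Fin β → ℝ) (ℝ × ℝ)).comp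
          (ContinuousLinearMap.snd ℝ (Fin α → ℝ) ((Fin β → ℝ) × ℝ × ℝ)))
      have h2 : HasFDerivAt (fun y => L (Ph α β e1 e2 F y))
        (L.comp (fderiv ℝ (Ph α β e1 e2 F) x)) x := L.hasFDerivAt.comp x h1
      have h3 : HasFDerivAt (fun y => L' y) L' x := L'.hasFDerivAt
      have h4 := h2.unique h3
      have h5 := congrArg (fun L => L ((u, v, c, d) : (Fin α → ℝ) × (Fin β → ℝ) × ℝ × ℝ)) h4
      simp only [ContinuousLinearMap.comp_apply, h0] at h5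
      rw [map_zero] at h5
      exact h5.symm
    subst hd
    rw [fderiv_Ph hF] at h0
    simp only [Prod.mk_eq_zero] at h0
    obtain ⟨h1, h2, h3, h4, -⟩ := h0
    have h5 : wronskian (tp u) (tp x.2.1) + wronskian (tp x.1) (tp v) - c • F x.2.2.2 = 0 := by
      ext k
      rcases lt_or_ge k (α + β - 2) with hk | hk
      · exact congrFun h1 ⟨k, hk⟩
      · rw [coeff_zero]
        exact coeff_zero_of_mem (Submodule.sub_mem _ (Submodule.add_mem _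
          (wr_mem (tp_mem u) (tp_mem x.2.1)) (wr_mem (tp_mem x.1) (tp_mem v)))
          (Submodule.smul_mem _ _ (hN _))) hk
    obtain ⟨h6, h7, h8⟩ := h u v c h2 h3 h4 (sub_eq_zero.1 h5)
    rw [h6, h7, h8]
    rfl

end

end Pool.Agent.Helper46.WR
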