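import Pool.Agent.Helper46.WR.Local

/-!
# The fibres near a simple point: existence and uniqueness
-/

open Polynomial Filter Topology

namespace Pool.Agent.Helper46.WR

variable {α β e1 e2 : ℕ}

theorem ch_pl_mem {F : ℝ → ℝ[X]} {ε : ℝ} (h2 : α ≤ e2) (h3 : e2 < β) {p q : ℝ[X]}
    (hp : p ∈ degreeLT ℝ α) (hq : q ∈ degreeLT ℝ β) (hW : wronskian p q = F ε)
    (hM : pl p q e1 e2 ≠ 0) :
    Ph α β e1 e2 F ((ch α β e1 e2 (pl p q)).1, (ch α β e1 e2 (pl p q)).2.1,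
      (ch α β e1 e2 (pl p q)).2.2, ε) = (0, 1, 0, 1, ε) ∧
    wronskian (tp (ch α β e1 e2 (pl p q)).1) (tp (ch α β e1 e2 (pl p q)).2.1) =
      (ch α β e1 e2 (pl p q)).2.2 • F ε ∧
    (ch α β e1 e2 (pl p q)).2.2⁻¹ • pl (tp (ch α β e1 e2 (pl p q)).1)
      (tp (ch α β e1 e2 (pl p q)).2.1) = pl p q := by
  obtain ⟨hs, ht, hp', hq', hk, hc1, hc2, hc3⟩ := ch_spec h2 h3 hp hq hM
  set x := ch α β e1 e2 (pl p q) with hx
  set s := p.coeff e1 with hsdef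
  set t := q.coeff e2 with htdef
  set r := q.coeff e1 with hrdef
  have e : wronskian p q = (s * t) • wronskian (tp x.1) (tp x.2.1) := by
    conv_lhs => rw [hp', hq']
    rw [wronskian_add_right, wr_smul_left, wr_smul_left, wr_smul_right, wr_smul_right,
      wronskian_self_eq_zero]
    module
  have e' : wronskian (tp x.1) (tp x.2.1) = x.2.2 • F ε := by
    rw [← hW, e, hk, smul_smul]
    rw [one_div, inv_mul_cancel₀ (mul_ne_zero hs ht), one_smul]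
  refine ⟨?_, e', ?_⟩
  · simp only [Ph, hc1, hc2, hc3, e']
    refine Prod.ext ?_ rfl
    funext k
    simp
  · have e2 : pl p q = (s * t) • pl (tp x.1) (tp x.2.1) := by
      conv_lhs => rw [hp', hq']
      rw [pl_add_right, pl_smul_left, pl_smul_left, pl_smul_right, pl_smul_right, pl_self,
        smul_zero, smul_zero, add_zero, smul_smul]
    rw [hk, e2, one_div, inv_inv]

theorem mem_of_Ph {F : ℝ → ℝ[X]} (hN : ∀ ε, F ε ∈ degreeLT ℝ (α + β - 2))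
    {x : (Fin α → ℝ) × (Fin β → ℝ) × ℝ × ℝ} {ε : ℝ} (h : Ph α β e1 e2 F x = (0, 1, 0, 1, ε))
    (hk : x.2.2.1 ≠ 0) : x.2.2.2 = ε ∧
      x.2.2.1⁻¹ • pl (tp x.1) (tp x.2.1) ∈ MM (F ε) α β := by
  simp only [Ph, Prod.mk.injEq] at h
  obtain ⟨h1, -, -, -, h5⟩ := h
  refine ⟨h5, ⟨(x.2.2.1⁻¹ • tp x.1, tp x.2.1), ⟨Submodule.smul_mem _ _ (tp_mem _), tp_mem _, ?_⟩,
    by simp only [pl_smul_left]⟩⟩
  have e : wronskian (tp x.1) (tp x.2.1) = x.2.2.1 • F ε := by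
    ext k
    rcases lt_or_ge k (α + β - 2) with hk | hk
    · have := congrFun h1 ⟨k, hk⟩
      simp only [Pi.zero_apply, h5] at this
      rw [coeff_smul, smul_eq_mul]
      linarith
    · rw [coeff_zero_of_mem (wr_mem (tp_mem _) (tp_mem _)) hk, coeff_smul,
        coeff_zero_of_mem (hN ε) hk, smul_zero]
  simp only
  rw [wr_smul_left, e, smul_smul, inv_mul_cancel₀ hk, one_smul]

theorem inj_of_ND {F : ℝ → ℝ[X]} {x : (Fin α → ℝ) × (Fin β → ℝ) × ℝ × ℝ}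
    (hF0 : F x.2.2.2 ≠ 0) (hk : x.2.2.1 ≠ 0)
    (hW : wronskian (tp x.1) (tp x.2.1) = x.2.2.1 • F x.2.2.2) (h2 : α ≤ e2)
    (c1 : cf x.1 e1 = 1) (c2 : cf x.2.1 e1 = 0) (c3 : cf x.2.1 e2 = 1)
    (h : ND α β (tp x.1) (tp x.2.1)) : Inj α β e1 e2 F x := by
  intro u v c hu hv1 hv2 he
  have e : c • F x.2.2.2 = (c / x.2.2.1) • wronskian (tp x.1) (tp x.2.1) := by
    rw [hW, smul_smul, div_mul_cancel₀ _ hk]
  rw [e] at he
  obtain ⟨⟨a, ha⟩, b, d, hbd⟩ := h _ (tp_mem u) _ (tp_mem v) _ he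
  have ha0 : a = 0 := by
    have := congrArg (fun p => p.coeff e1) ha
    simp only [coeff_tp, coeff_smul, smul_eq_mul, c1, hu, mul_one] at this
    exact this.symm
  have hx2 : cf x.1 e2 = 0 := by
    rw [← coeff_tp]
    exact coeff_zero_of_mem (tp_mem _) h2
  have hd0 : d = 0 := by
    have := congrArg (fun p => p.coeff e2) hbd
    simp only [coeff_tp, coeff_add, coeff_smul, smul_eq_mul, c3, hv2, hx2, mul_one, mul_zero,
      zero_add] at this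
    exact this.symm
  have hb0 : b = 0 := by
    have := congrArg (fun p => p.coeff e1) hbd
    simp only [coeff_tp, coeff_add, coeff_smul, smul_eq_mul, c1, c2, hv1, mul_one, mul_zero,
      add_zero] at this
    exact this.symm
  have hu0 : u = 0 := by
    apply tp_inj
    rw [ha, ha0, zero_smul]
    simp [tp]
  have hv0 : v = 0 := by
    apply tp_inj
    rw [hbd, hb0, hd0, zero_smul, zero_smul, add_zero]
    simp [tp]
  refine ⟨hu0, hv0, ?_⟩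
  have hz : tp (0 : Fin α → ℝ) = 0 := by simp [tp]
  have hz' : tp (0 : Fin β → ℝ) = 0 := by simp [tp]
  rw [hu0, hv0, hz, hz', wronskian_zero_left, wronskian_zero_right, add_zero, ← e] at he
  exact (smul_eq_zero.1 he.symm).resolve_right hF0

theorem ND_of_inj {F : ℝ → ℝ[X]} {x : (Fin α → ℝ) × (Fin β → ℝ) × ℝ × ℝ} (hαβ : α ≤ β)
    (hW : wronskian (tp x.1) (tp x.2.1) = x.2.2.1 • F x.2.2.2) (h2 : α ≤ e2)
    (c1 : cf x.1 e1 = 1) (c2 : cf x.2.1 e1 = 0) (c3 : cf x.2.1 e2 = 1)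
    (h : Inj α β e1 e2 F x) : ND α β (tp x.1) (tp x.2.1) := by
  intro u hu v hv c hc
  obtain ⟨U, rfl⟩ := exists_tp hu
  obtain ⟨V, rfl⟩ := exists_tp hv
  obtain ⟨P, hP⟩ := exists_tp (degreeLT_mono hαβ (tp_mem x.1))
  have hx2 : (tp x.1).coeff e2 = 0 := coeff_zero_of_mem (tp_mem _) h2
  have e : wronskian (tp (U - cf U e1 • x.1)) (tp x.2.1) +
      wronskian (tp x.1) (tp (V - cf V e1 • P - cf V e2 • x.2.1)) =
      ((c - cf U e1 - cf V e2) * x.2.2.1) • F x.2.2.2 := by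
    rw [tp_sub, tp_sub, tp_sub, tp_smul, tp_smul, tp_smul, hP, wr_sub_left, wr_sub_right,
      wr_sub_right, wr_smul_left, wr_smul_right, wr_smul_right, wronskian_self_eq_zero,
      mul_smul, ← hW]
    have : wronskian (tp U) (tp x.2.1) + wronskian (tp x.1) (tp V) =
      c • wronskian (tp x.1) (tp x.2.1) := hc
    have e5 : wronskian (tp U) (tp x.2.1) - cf U e1 • wronskian (tp x.1) (tp x.2.1) +
        (wronskian (tp x.1) (tp V) - cf V e1 • 0 - cf V e2 • wronskian (tp x.1) (tp x.2.1)) =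
        (wronskian (tp U) (tp x.2.1) + wronskian (tp x.1) (tp V)) -
          cf U e1 • wronskian (tp x.1) (tp x.2.1) - cf V e2 • wronskian (tp x.1) (tp x.2.1) := by
      rw [smul_zero]
      abel
    rw [e5, this]
    module
  have hP1 : cf P e1 = 1 := by rw [← coeff_tp, hP, coeff_tp, c1]
  have hP2 : cf P e2 = 0 := by rw [← coeff_tp, hP, hx2]
  have cs : ∀ {n : ℕ} (a b : Fin n → ℝ) (i : ℕ), cf (a - b) i = cf a i - cf b i := by
    intro n a b i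
    rw [← coeff_tp, tp_sub, coeff_sub, coeff_tp, coeff_tp]
  obtain ⟨h4, h5, -⟩ := h _ _ _
    (by rw [cs, cf_smul, c1]; ring)
    (by rw [cs, cs, cf_smul, cf_smul, c2, hP1]; ring)
    (by rw [cs, cs, cf_smul, cf_smul, c3, hP2]; ring) e
  refine ⟨⟨cf U e1, ?_⟩, cf V e1, cf V e2, ?_⟩
  · rw [← tp_smul, ← sub_eq_zero.1 h4]
  · have h6 : V = cf V e1 • P + cf V e2 • x.2.1 := by
      have : V - cf V e1 • P - cf V e2 • x.2.1 = 0 := h5
      rw [sub_sub, sub_eq_zero] at this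
      exact this
    conv_lhs => rw [h6]
    rw [tp_add, tp_smul, tp_smul, hP]

theorem continuousAt_ch {M₀ : ℕ → ℕ → ℝ} (h : M₀ e1 e2 ≠ 0) : ContinuousAt (ch α β e1 e2) M₀ := by
  have c : ∀ i j, ContinuousAt (fun M : ℕ → ℕ → ℝ => M i j) M₀ := fun i j =>
    ((continuous_apply j).comp (continuous_apply i)).continuousAt
  unfold ch
  refine ContinuousAt.prodMk (continuousAt_pi.2 fun i => (c _ _).div (c _ _) h)
    ((continuousAt_pi.2 fun i => (c _ _).div (c _ _) h).prodMk (continuousAt_const.div (c _ _) h))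

/-- Existence and uniqueness near a simple point. -/
theorem local_main {F : ℝ → ℝ[X]} (hαβ : α ≤ β) (hF : ∀ i, ContDiff ℝ 1 fun ε => (F ε).coeff i)
    (hN : ∀ ε, F ε ∈ degreeLT ℝ (α + β - 2)) (h0 : F 0 ≠ 0) (h2 : α ≤ e2) (h3 : e2 < β)
    {p q : ℝ[X]} (hp : p ∈ degreeLT ℝ α) (hq : q ∈ degreeLT ℝ β) (hW : wronskian p q = F 0)
    (hM : pl p q e1 e2 ≠ 0) (hnd : ND α β p q) :
    (∀ O ∈ 𝓝 (pl p q), ∀ᶠ ε in 𝓝 (0 : ℝ), (MM (F ε) α β ∩ O).Nonempty) ∧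
      ∃ O ∈ 𝓝 (pl p q), ∀ᶠ ε in 𝓝 (0 : ℝ), (MM (F ε) α β ∩ O).Subsingleton ∧
        ∀ x ∈ Pr (F ε) α β, pl x.1 x.2 ∈ O → ND α β x.1 x.2 := by
  have hα : 1 ≤ α := by
    by_contra hcon
    have hα0 : α = 0 := by omega
    subst hα0
    have : p = 0 := by
      ext i
      exact coeff_zero_of_mem hp (Nat.zero_le i)
    rw [this, wronskian_zero_left] at hW
    exact h0 hW.symm
  have hβ : 1 ≤ β := hα.trans hαβ
  obtain ⟨hPh, hWx, hMx⟩ := ch_pl_mem (F := F) (ε := 0) h2 h3 hp hq hW hM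
  obtain ⟨hs, ht, hp', hq', hk, hc1, hc2, hc3⟩ := ch_spec h2 h3 hp hq hM
  set y := ch α β e1 e2 (pl p q) with hy
  set x₀ : (Fin α → ℝ) × (Fin β → ℝ) × ℝ × ℝ := (y.1, y.2.1, y.2.2, 0) with hx₀
  have hk0 : y.2.2 ≠ 0 := by
    rw [hk]
    exact one_div_ne_zero (mul_ne_zero hs ht)
  have hndx : ND α β (tp y.1) (tp y.2.1) := by
    have h4 := hnd.change hαβ (s := (p.coeff e1)⁻¹) (t := (q.coeff e2)⁻¹)
      (-(q.coeff e2)⁻¹ * q.coeff e1 * (p.coeff e1)⁻¹) (inv_ne_zero hs) (inv_ne_zero ht)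
    have e1' : (p.coeff e1)⁻¹ • p = tp y.1 := by
      have : (p.coeff e1)⁻¹ • p = (p.coeff e1)⁻¹ • (p.coeff e1 • tp y.1) := by rw [← hp']
      rw [this, smul_smul, inv_mul_cancel₀ hs, one_smul]
    have e2' : (q.coeff e2)⁻¹ • q + (-(q.coeff e2)⁻¹ * q.coeff e1 * (p.coeff e1)⁻¹) • p =
        tp y.2.1 := by
      have a1 : (-(q.coeff e2)⁻¹ * q.coeff e1 * (p.coeff e1)⁻¹) • p =
          (-(q.coeff e2)⁻¹ * q.coeff e1) • tp y.1 := by rw [mul_smul, e1']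
      have a2 : (q.coeff e2)⁻¹ • q = (q.coeff e2)⁻¹ •
          (q.coeff e2 • tp y.2.1 + q.coeff e1 • tp y.1) := by rw [← hq']
      rw [a1, a2, smul_add, smul_smul, smul_smul, inv_mul_cancel₀ ht, one_smul]
      module
    rw [e1', e2'] at h4
    exact h4
  have hinj0 : Inj α β e1 e2 F x₀ := inj_of_ND h0 hk0 hWx h2 hc1 hc2 hc3 hndx
  have hd : Module.finrank ℝ ((Fin α → ℝ) × (Fin β → ℝ) × ℝ × ℝ) =
      Module.finrank ℝ ((Fin (α + β - 2) → ℝ) × ℝ × ℝ × ℝ × ℝ) := by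
    simp only [Module.finrank_prod, Module.finrank_fin_fun, Module.finrank_self]
    omega
  obtain ⟨U, hU, hUinj, hUd, hUo⟩ := ift hd (contDiff_Ph hF) ((inj_iff hF hN x₀).2 hinj0)
  have hPh' : Ph α β e1 e2 F x₀ = (0, 1, 0, 1, 0) := hPh
  constructor
  · intro O hO
    have hcont : ContinuousAt (fun x : (Fin α → ℝ) × (Fin β → ℝ) × ℝ × ℝ =>
        x.2.2.1⁻¹ • pl (tp x.1) (tp x.2.1)) x₀ := by
      have b1 : ContinuousAt (fun x : (Fin α → ℝ) × (Fin β → ℝ) × ℝ × ℝ => x.2.2.1) x₀ := by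
        fun_prop
      have b2 : Continuous (fun x : (Fin α → ℝ) × (Fin β → ℝ) × ℝ × ℝ =>
          pl (tp x.1) (tp x.2.1)) :=
        continuous_pl continuous_fst (continuous_fst.comp continuous_snd)
      exact (b1.inv₀ hk0).smul b2.continuousAt
    have hV : {x : (Fin α → ℝ) × (Fin β → ℝ) × ℝ × ℝ | x.2.2.1 ≠ 0 ∧
        x.2.2.1⁻¹ • pl (tp x.1) (tp x.2.1) ∈ O} ∈ 𝓝 x₀ := by
      refine inter_mem ?_ (hcont.preimage_mem_nhds ?_)
      · have : ContinuousAt (fun x : (Fin α → ℝ) × (Fin β → ℝ) × ℝ × ℝ => x.2.2.1) x₀ := by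
          fun_prop
        exact this.eventually_ne hk0
      · change O ∈ 𝓝 (y.2.2⁻¹ • pl (tp y.1) (tp y.2.1))
        rw [hMx]
        exact hO
    have h5 := hUo _ hV
    rw [hPh'] at h5
    have h6 : ContinuousAt (fun ε : ℝ => ((0, 1, 0, 1, ε) :
        (Fin (α + β - 2) → ℝ) × ℝ × ℝ × ℝ × ℝ)) 0 := by fun_prop
    filter_upwards [h6.preimage_mem_nhds h5] with ε hε
    obtain ⟨x, ⟨hx1, hx2⟩, hx3⟩ := hε
    obtain ⟨-, h7⟩ := mem_of_Ph hN hx3 hx1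
    exact ⟨_, h7, hx2⟩
  · have hcont : ContinuousAt (fun z : (ℕ → ℕ → ℝ) × ℝ =>
        (((ch α β e1 e2 z.1).1, (ch α β e1 e2 z.1).2.1, (ch α β e1 e2 z.1).2.2, z.2) :
          (Fin α → ℝ) × (Fin β → ℝ) × ℝ × ℝ)) (pl p q, 0) := by
      have a1 : ContinuousAt (fun z : (ℕ → ℕ → ℝ) × ℝ => ch α β e1 e2 z.1) (pl p q, 0) :=
        ContinuousAt.comp (f := Prod.fst) (g := ch α β e1 e2) (x := (pl p q, (0 : ℝ)))
          (continuousAt_ch hM) continuousAt_fst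
      exact a1.fst.prodMk (a1.snd.fst.prodMk (a1.snd.snd.prodMk continuousAt_snd))
    have h5 := hcont.preimage_mem_nhds (t := U) hU
    rw [nhds_prod_eq, Filter.mem_prod_iff] at h5
    obtain ⟨O, hO, I, hI, hOI⟩ := h5
    have hne : {M : ℕ → ℕ → ℝ | M e1 e2 ≠ 0} ∈ 𝓝 (pl p q) := by
      have : ContinuousAt (fun M : ℕ → ℕ → ℝ => M e1 e2) (pl p q) :=
        ((continuous_apply e2).comp (continuous_apply e1)).continuousAt
      exact this.eventually_ne hM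
    refine ⟨O ∩ {M | M e1 e2 ≠ 0}, inter_mem hO hne, ?_⟩
    filter_upwards [hI] with ε hε
    have key : ∀ x ∈ Pr (F ε) α β, pl x.1 x.2 ∈ O →
        ((ch α β e1 e2 (pl x.1 x.2)).1, (ch α β e1 e2 (pl x.1 x.2)).2.1,
          (ch α β e1 e2 (pl x.1 x.2)).2.2, ε) ∈ U := fun x _ hx => hOI (Set.mk_mem_prod hx hε)
    constructor
    · rintro M ⟨⟨x, hx, rfl⟩, hM1, hM2⟩ M' ⟨⟨x', hx', rfl⟩, hM1', hM2'⟩
      simp only at hM1 hM2 hM1' hM2' ⊢
      obtain ⟨a1, -, a3⟩ := ch_pl_mem h2 h3 hx.1 hx.2.1 hx.2.2 hM2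
      obtain ⟨b1, -, b3⟩ := ch_pl_mem h2 h3 hx'.1 hx'.2.1 hx'.2.2 hM2'
      have h6 := hUinj (key x hx hM1) (key x' hx' hM1') (a1.trans b1.symm)
      simp only [Prod.mk.injEq] at h6
      obtain ⟨g1, g2, g3, -⟩ := h6
      rw [← a3, ← b3, g1, g2, g3]
    · rintro x hx ⟨hM1, hM2⟩
      obtain ⟨a1, a2, a3⟩ := ch_pl_mem h2 h3 hx.1 hx.2.1 hx.2.2 hM2
      obtain ⟨bs, bt, bp, bq, bk, bc1, bc2, bc3⟩ := ch_spec h2 h3 hx.1 hx.2.1 hM2
      have h6 := (inj_iff hF hN _).1 (hUd _ (key x hx hM1))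
      have h7 := ND_of_inj (x := ((ch α β e1 e2 (pl x.1 x.2)).1, (ch α β e1 e2 (pl x.1 x.2)).2.1,
          (ch α β e1 e2 (pl x.1 x.2)).2.2, ε)) hαβ a2 h2 bc1 bc2 bc3 h6
      have h8 := h7.change hαβ (x.2.coeff e1) bs bt
      rw [← bp, ← bq] at h8
      exact h8

end Pool.Agent.Helper46.WR
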