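import Pool.Agent.Helper46.WR.Defs

/-!
# The numbers `σ_{2,n}`
-/

namespace Pool.Agent.Helper46.WR

theorem sigmaFormula_two (i : ℕ) (hi : 1 ≤ i) :
    sigmaFormula 2 (2 * i + 3) = ((2 * i).factorial : ℚ) / (i.factorial * (i + 1).factorial) := by
  have e1 : 2 * i + 3 - 2 * 2 + 1 = 2 * i := by omega
  have e2 : 2 * i + 3 - 2 - 1 = 2 * i := by omega
  have e3 : 2 * (2 * i + 3 - 2) / 2 = 2 * i + 1 := by omega
  have e4 : 2 * i + 3 - 2 * 2 + 2 * 1 = 2 * i + 1 := by omega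
  have e5 : (2 * i + 3 - 2 * 2 + 2 * 1 - 1) / 2 = i := by omega
  have e6 : (2 * i + 3 - 2 * 2 + 2 * 2 - 1) / 2 = i + 1 := by omega
  have f1 : ((2 * i + 1).factorial : ℚ) ≠ 0 := by positivity
  have h12 : Finset.Icc 1 2 = {1, 2} := by decide
  rw [sigmaFormula, e1, e2, e3, show 2 - 1 = 1 by rfl, Finset.Icc_self, Finset.Icc_self,
    Finset.prod_singleton, Finset.prod_singleton, Finset.prod_singleton, h12,
    Finset.prod_pair (by decide), e5, e6, e4]
  rw [Nat.factorial_one]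
  push_cast
  field_simp

theorem bal_catalan (i : ℕ) (hi : 1 ≤ i) :
    ((bal i (i + 1) : ℤ) : ℚ) = ((2 * i).factorial : ℚ) / (i.factorial * (i + 1).factorial) := by
  obtain ⟨k, rfl⟩ : ∃ k, i = k + 1 := ⟨i - 1, by omega⟩
  rw [bal, if_neg (by omega), show k + 1 + (k + 1 + 1) - 1 = 2 * (k + 1) by omega,
    Nat.add_sub_cancel]
  push_cast
  rw [Nat.cast_choose ℚ (by omega : k + 1 ≤ 2 * (k + 1)),
    Nat.cast_choose ℚ (by omega : k ≤ 2 * (k + 1)), show 2 * (k + 1) - (k + 1) = k + 1 by omega,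
    show 2 * (k + 1) - k = k + 1 + 1 by omega, Nat.factorial_succ (k + 1), Nat.factorial_succ k]
  have f1 : (k.factorial : ℚ) ≠ 0 := by positivity
  push_cast
  field_simp
  ring

theorem sigma_two (i : ℕ) (hi : 1 ≤ i) : sigma 2 (2 * i + 3) = ((bal i (i + 1) : ℤ) : ℚ) := by
  rw [sigma, if_neg (by rw [Nat.not_even_iff_odd]; exact ⟨i + 1, by ring⟩), if_pos (by omega),
    sigmaFormula_two i hi, bal_catalan i hi]

theorem sigma_dual (i : ℕ) (hi : 1 ≤ i) :
    sigma (2 * i + 1) (2 * i + 3) = ((bal i (i + 1) : ℤ) : ℚ) := by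
  rw [sigma, if_neg (by rw [Nat.not_even_iff_odd]; exact ⟨i + 1, by ring⟩), if_neg (by omega),
    show 2 * i + 3 - (2 * i + 1) = 2 by omega, sigmaFormula_two i hi, bal_catalan i hi]

end Pool.Agent.Helper46.WR
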