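import Pool.Agent.Helper46.WR.Induct
import Pool.Agent.Helper46.WR.Fibre
import Pool.Agent.Helper46.WR.Sigma

/-!
# Sharpness of `σ_{2,n}` for odd `n`
-/

open Polynomial

namespace Pool.Agent.Helper46.WR

/-- For odd `n = 2 i + 3` there is a polynomial of degree `2 (n - 2) - 1` with distinct roots and
exactly `σ_{2,n}` real points in its fibre. -/
theorem exists_f (i : ℕ) (hi : 1 ≤ i) : ∃ f : ℝ[X], f.Separable ∧ f.natDegree + 1 = 2 * (2 * i + 1) ∧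
    (realFibre 2 (2 * i + 3) f).Finite ∧
    (((realFibre 2 (2 * i + 3) f).ncard : ℚ)) = ((bal i (i + 1) : ℤ) : ℚ) := by
  obtain ⟨f, hdeg, hlc, hodd, hsep, hcount⟩ := exists_good (2 * i)
  obtain ⟨h1, h2, h3, h4⟩ := hcount (2 * i + 1) (2 * i + 3) (by omega) (by omega)
  obtain ⟨h5, h6⟩ := ncard_realFibre (N := 2 * i + 1) hsep.ne_zero (by omega) h2
  refine ⟨f, hsep, by omega, h5, ?_⟩
  have h7 := h4 i (i + 1) rfl (by ring)
  rw [← h7]
  have e : (realFibre 2 (2 * i + 3) f).ncard = (MM f (2 * i + 1) (2 * i + 3)).ncard := h6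
  rw [e]
  push_cast
  rfl

theorem sharp_two (n : ℕ) (hn : Odd n) (h5 : 5 ≤ n) : Sharp 2 n := by
  obtain ⟨l, rfl⟩ := hn
  obtain ⟨i, rfl⟩ : ∃ i, l = i + 1 := ⟨l - 1, by omega⟩
  have hi : 1 ≤ i := by omega
  have e : 2 * (i + 1) + 1 = 2 * i + 3 := by ring
  rw [e]
  obtain ⟨f, hsep, hdeg, hfin, hcard⟩ := exists_f i hi
  refine ⟨f, ⟨hsep, by omega, by omega⟩, hfin, ?_⟩
  rw [hcard, sigma_two i hi]

end Pool.Agent.Helper46.WR
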