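import Pool.Agent.Helper46.WR.Main
import Pool.Agent.Helper46.WR.Dual2

/-!
# Sharpness of `σ_{2,n}` and `σ_{n-2,n}` for odd `n`
-/

open Polynomial

namespace Pool.Agent.Helper46.WR

/-- Sharpness is invariant under `k ↦ n - k`, for odd `n`. -/
theorem sharp_dual {k l n : ℕ} (hn : Odd n) (h : l + k = n) (hs : Sharp k n) : Sharp l n := by
  obtain ⟨f, ⟨hsep, hd1, hd2⟩, hfin, hcard⟩ := hs
  have h1 : 1 ≤ n := hn.pos
  have hb := fibre_dual h1 h f
  have e1 : n - k = l := by omega
  have e2 : n - l = k := by omega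
  rw [e1, mul_comm] at hd1 hd2
  refine ⟨f, ⟨hsep, by rw [e2]; exact hd1, by rw [e2]; exact hd2⟩, ?_, ?_⟩
  · rw [← hb.image_eq]
    exact hfin.image _
  · rw [← hb.image_eq, Set.ncard_image_of_injOn hb.injOn, hcard]
    have hne : ¬ Even n := Nat.not_even_iff_odd.2 hn
    unfold sigma
    rw [if_neg hne, if_neg hne, e1, e2]
    obtain ⟨m, rfl⟩ := hn
    rcases Nat.lt_or_ge l k with hlk | hlk
    · rw [if_neg (by omega), if_pos (by omega)]
    · rw [if_pos (by omega), if_neg (by omega)]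

theorem sharp_two_or (k n : ℕ) (hn : Odd n) (h5 : 5 ≤ n) (hk : k = 2 ∨ k = n - 2) : Sharp k n := by
  rcases hk with rfl | rfl
  · exact sharp_two n hn h5
  · exact sharp_dual hn (by omega) (sharp_two n hn h5)

end Pool.Agent.Helper46.WR
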