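import Pool.Agent.Helper46.WR.Limit
import Pool.Agent.Helper46.WR.LocalMain
import Pool.Agent.Helper46.WR.Count

/-!
# The induction step
-/

open Polynomial Filter Topology

namespace Pool.Agent.Helper46.WR

theorem pert_eq (f : ℝ[X]) (ε : ℝ) : pert f ε = f + ε ^ 2 • (f * X ^ 2) := by
  rw [pert, mul_add, mul_one, smul_eq_C_mul]
  ring

theorem coeff_pert (f : ℝ[X]) (ε : ℝ) (i : ℕ) :
    (pert f ε).coeff i = f.coeff i + ε ^ 2 * (f * X ^ 2).coeff i := by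
  rw [pert_eq, coeff_add, coeff_smul, smul_eq_mul]

theorem pert_zero (f : ℝ[X]) : pert f 0 = f := by
  rw [pert_eq]
  simp

theorem contDiff_pert (f : ℝ[X]) (i : ℕ) : ContDiff ℝ 1 fun ε => (pert f ε).coeff i := by
  simp only [coeff_pert]
  fun_prop

theorem pert_mem {f : ℝ[X]} {n : ℕ} (hdeg : f.natDegree + 2 < n) (ε : ℝ) :
    pert f ε ∈ degreeLT ℝ n := by
  rw [pert_eq]
  refine Submodule.add_mem _ ?_ (Submodule.smul_mem _ _ ?_)
  · rw [mem_degreeLT]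
    exact lt_of_le_of_lt degree_le_natDegree (by exact_mod_cast (by omega : f.natDegree < n))
  · rw [mem_degreeLT]
    refine lt_of_le_of_lt degree_le_natDegree ?_
    have : (f * X ^ 2).natDegree ≤ f.natDegree + 2 := by
      refine natDegree_mul_le.trans ?_
      rw [natDegree_X_pow]
    exact_mod_cast lt_of_le_of_lt this hdeg

theorem coeff_pert_top (f : ℝ[X]) (ε : ℝ) :
    (pert f ε).coeff (f.natDegree + 2) = ε ^ 2 * f.leadingCoeff := by
  rw [coeff_pert, coeff_mul_X_pow, coeff_eq_zero_of_natDegree_lt (by omega), zero_add]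
  rfl

theorem coeff_pert_even {f : ℝ[X]} (hodd : ∀ i, Even i → f.coeff i = 0) (ε : ℝ) (i : ℕ)
    (hi : Even i) : (pert f ε).coeff i = 0 := by
  rw [coeff_pert, hodd i hi, zero_add, coeff_mul_X_pow']
  split_ifs with h
  · rw [hodd _ ((Nat.even_sub h).2 ⟨fun _ => by decide, fun _ => hi⟩), mul_zero]
  · rw [mul_zero]

theorem step {f : ℝ[X]} {α β : ℕ} (hα : 1 ≤ α) (hαβ : α ≤ β) (hpar : Even (α + β))
    (hdeg : f.natDegree + 3 = α + β) (hlc : 0 < f.leadingCoeff)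
    (hodd : ∀ i, Even i → f.coeff i = 0) (n1 : Nondeg f α β) (n2 : Nondeg f (α - 2) (β + 2))
    (f1 : (MM f α β).Finite) (f2 : (MM f (α - 2) (β + 2)).Finite) :
    ∀ᶠ ε in 𝓝[>] (0 : ℝ), (MM (pert f ε) α (β + 2)).Finite ∧
      (MM (pert f ε) α (β + 2)).ncard = (MM f α β).ncard + (MM f (α - 2) (β + 2)).ncard ∧
      Nondeg (pert f ε) α (β + 2) := by
  have hf : f ≠ 0 := by
    rintro rfl
    simp at hlc
  set L : Set (ℕ → ℕ → ℝ) := MM f α β ∪ MM f (α - 2) (β + 2) with hL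
  have hLfin : L.Finite := f1.union f2
  -- upper semicontinuity
  have h1 : ∀ O, IsOpen O → L ⊆ O → ∀ᶠ ε in 𝓝[>] (0 : ℝ), MM (pert f ε) α (β + 2) ⊆ O := by
    intro O hO hLO
    by_contra hcon
    have hfreq : ∃ᶠ ε in 𝓝[>] (0 : ℝ), ¬ MM (pert f ε) α (β + 2) ⊆ O :=
      Filter.not_eventually.1 hcon
    have hpos : ∀ᶠ ε in 𝓝[>] (0 : ℝ), 0 < ε := self_mem_nhdsWithin
    have hCl : IsClosed (Oᶜ ∩ {M : ℕ → ℕ → ℝ | 2 ≤ α → M (α - 2) β ≤ 0}) := by
      refine hO.isClosed_compl.inter ?_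
      by_cases h2 : 2 ≤ α
      · simp only [h2, forall_const]
        exact isClosed_le ((continuous_apply β).comp (continuous_apply (α - 2))) continuous_const
      · simp only [h2, false_implies]
        exact isClosed_univ
    obtain ⟨⟨p, q⟩, ⟨hp, hq, hW⟩, hC1, hC2⟩ := compact_limit (F := pert f) (α := α) (β := β + 2)
      (by omega) (fun i => (contDiff_pert f i).continuous) (by rw [pert_zero]; exact hf) hCl
      ((hfreq.and_eventually hpos).mono (by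
        rintro ε ⟨hε, hε0⟩
        obtain ⟨M, ⟨⟨p, q⟩, ⟨hp, hq, hW⟩, rfl⟩, hMO⟩ := Set.not_subset.1 hε
        simp only at hp hq hW hMO
        refine ⟨(p, q), ⟨hp, hq, hW⟩, hMO, ?_⟩
        intro h2
        obtain ⟨a, rfl⟩ : ∃ a, α = a + 2 := ⟨α - 2, by omega⟩
        change pl p q (a + 2 - 2) β ≤ 0
        rw [Nat.add_sub_cancel]
        refine sign (by omega) hp hq ?_ ?_
        · rw [hW, show a + β + 1 = f.natDegree + 2 by omega, coeff_pert_top]
          positivity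
        · rw [hW]
          exact coeff_pert_even hodd ε _ (by
            rw [show a + 2 + β = (a + β) + 2 by ring] at hpar
            exact (Nat.even_add.1 hpar).2 (by decide))))
    rw [pert_zero] at hW
    simp only at hp hq hW hC1 hC2
    rcases classify hα hαβ hdeg hlc hp hq hW hC2 with h3 | h3
    · exact hC1 (hLO (Or.inl ⟨(p, q), ⟨hp, h3, hW⟩, rfl⟩))
    · exact hC1 (hLO (Or.inr ⟨(p, q), ⟨h3, hq, hW⟩, rfl⟩))
  -- local analysis
  have hloc : ∀ M ∈ L, (∀ O ∈ 𝓝 M, ∀ᶠ ε in 𝓝 (0 : ℝ), (MM (pert f ε) α (β + 2) ∩ O).Nonempty) ∧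
      ∃ O ∈ 𝓝 M, ∀ᶠ ε in 𝓝 (0 : ℝ), (MM (pert f ε) α (β + 2) ∩ O).Subsingleton ∧
        ∀ x ∈ Pr (pert f ε) α (β + 2), pl x.1 x.2 ∈ O → ND α (β + 2) x.1 x.2 := by
    have hN : ∀ ε, pert f ε ∈ degreeLT ℝ (α + (β + 2) - 2) := fun ε =>
      pert_mem (by omega) ε
    rintro M (⟨⟨p, q⟩, ⟨hp, hq, hW⟩, rfl⟩ | ⟨⟨p, q⟩, ⟨hp, hq, hW⟩, rfl⟩)
    · simp only at hp hq hW ⊢
      obtain ⟨g1, g2, g3, g4, g5⟩ := top_ne hf hdeg hp hq hW
      have hpβ : p.coeff (β - 1) = 0 := coeff_zero_of_mem hp (by omega)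
      refine local_main (e1 := α - 1) (e2 := β - 1) (by omega) (contDiff_pert f) hN
        (by rw [pert_zero]; exact hf) (by omega) (by omega) hp (degreeLT_mono (by omega) hq)
        (by rw [pert_zero]; exact hW) ?_ (lift1 hαβ hf hdeg hp hq hW (n1 (p, q) ⟨hp, hq, hW⟩))
      rw [pl, hpβ, zero_mul, sub_zero]
      exact mul_ne_zero g4 g5
    · simp only at hp hq hW ⊢
      have hα3 : 3 ≤ α := by
        by_contra hcon
        have h0 : α - 2 = 0 := by omega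
        rw [h0] at hp
        have h5 : ((p, q) : ℝ[X] × ℝ[X]) ∈ Pr f 0 (β + 2) := ⟨hp, hq, hW⟩
        rw [MM_zero_left hf] at h5
        exact h5
      obtain ⟨g1, g2, g3, g4, g5⟩ := top_ne hf (α := α - 2) (β := β + 2) (by omega) hp hq hW
      have hpβ : p.coeff (β + 2 - 1) = 0 := coeff_zero_of_mem hp (by omega)
      refine local_main (e1 := α - 2 - 1) (e2 := β + 2 - 1) (by omega) (contDiff_pert f) hN
        (by rw [pert_zero]; exact hf) (by omega) (by omega) (degreeLT_mono (by omega) hp) hq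
        (by rw [pert_zero]; exact hW) ?_ (lift2 hαβ hf hdeg hp hq hW (n2 (p, q) ⟨hp, hq, hW⟩))
      rw [pl, hpβ, zero_mul, sub_zero]
      exact mul_ne_zero g4 g5
  have hcount := count hLfin h1
    (fun M hM O hO => nhdsWithin_le_nhds ((hloc M hM).1 O hO))
    (fun M hM => by
      obtain ⟨O, hO, hO'⟩ := (hloc M hM).2
      exact ⟨O, hO, nhdsWithin_le_nhds (hO'.mono fun ε h => h.1)⟩)
  have hnd : ∀ᶠ ε in 𝓝[>] (0 : ℝ), Nondeg (pert f ε) α (β + 2) := by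
    have h3 : ∀ M ∈ L, ∃ O, IsOpen O ∧ M ∈ O ∧ ∀ᶠ ε in 𝓝[>] (0 : ℝ),
        ∀ x ∈ Pr (pert f ε) α (β + 2), pl x.1 x.2 ∈ O → ND α (β + 2) x.1 x.2 := by
      intro M hM
      obtain ⟨O, hO, hO'⟩ := (hloc M hM).2
      obtain ⟨V, hV1, hV2, hV3⟩ := mem_nhds_iff.1 hO
      exact ⟨V, hV2, hV3, nhdsWithin_le_nhds (hO'.mono fun ε h x hx hxV => h.2 x hx (hV1 hxV))⟩
    choose! V hV1 hV2 hV3 using h3
    have h4 := h1 (⋃ M ∈ L, V M) (isOpen_biUnion hV1) fun M hM => Set.mem_biUnion hM (hV2 M hM)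
    have h5 := (eventually_all_finite hLfin).2 hV3
    filter_upwards [h4, h5] with ε a1 a2
    intro x hx
    obtain ⟨M, hM, hxM⟩ := Set.mem_iUnion₂.1 (a1 ⟨x, hx, rfl⟩)
    exact a2 M hM x hx hxM
  filter_upwards [hcount, hnd] with ε a1 a2
  refine ⟨a1.1, ?_, a2⟩
  rw [a1.2, hL, Set.ncard_union_eq (disj hα hαβ hf hdeg) f1 f2]

end Pool.Agent.Helper46.WR
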