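import Pool.Agent.Helper46.WR.Alg

/-!
# Coefficient vectors
-/

open Polynomial Filter Topology

namespace Pool.Agent.Helper46.WR

/-- The entries of a vector, continued by zero. -/
def cf {n : ℕ} (u : Fin n → ℝ) (i : ℕ) : ℝ := if h : i < n then u ⟨i, h⟩ else 0

/-- The polynomial with a given vector of coefficients. -/
noncomputable def tp {n : ℕ} (u : Fin n → ℝ) : ℝ[X] := ((degreeLTEquiv ℝ n).symm u : ℝ[X])

theorem tp_mem {n : ℕ} (u : Fin n → ℝ) : tp u ∈ degreeLT ℝ n := ((degreeLTEquiv ℝ n).symm u).2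

theorem coeff_tp {n : ℕ} (u : Fin n → ℝ) (i : ℕ) : (tp u).coeff i = cf u i := by
  unfold cf
  split_ifs with h
  · have : (degreeLTEquiv ℝ n) ((degreeLTEquiv ℝ n).symm u) ⟨i, h⟩ = u ⟨i, h⟩ := by
      rw [LinearEquiv.apply_symm_apply]
    exact this
  · exact coeff_zero_of_mem (tp_mem u) (not_lt.1 h)

theorem exists_tp {n : ℕ} {p : ℝ[X]} (hp : p ∈ degreeLT ℝ n) : ∃ u : Fin n → ℝ, tp u = p := by
  refine ⟨degreeLTEquiv ℝ n ⟨p, hp⟩, ?_⟩
  rw [tp, LinearEquiv.symm_apply_apply]

theorem tp_add {n : ℕ} (u v : Fin n → ℝ) : tp (u + v) = tp u + tp v := by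
  simp [tp]

theorem tp_sub {n : ℕ} (u v : Fin n → ℝ) : tp (u - v) = tp u - tp v := by
  simp [tp]

theorem tp_smul {n : ℕ} (c : ℝ) (u : Fin n → ℝ) : tp (c • u) = c • tp u := by
  simp [tp]

theorem tp_inj {n : ℕ} {u v : Fin n → ℝ} (h : tp u = tp v) : u = v := by
  ext i
  have := congrArg (fun p => p.coeff (i : ℕ)) h
  simp only [coeff_tp, cf, i.2, dite_true] at this
  exact this

theorem cf_coe {n : ℕ} (u : Fin n → ℝ) (i : Fin n) : cf u i = u i := by
  simp [cf]

@[fun_prop]
theorem continuous_cf {n : ℕ} {X : Type*} [TopologicalSpace X] {g : X → Fin n → ℝ}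
    (hg : Continuous g) (i : ℕ) : Continuous fun x => cf (g x) i := by
  unfold cf
  split_ifs with h
  · exact (continuous_apply _).comp hg
  · exact continuous_const

theorem wr_smul_left (c : ℝ) (p q : ℝ[X]) : wronskian (c • p) q = c • wronskian p q := by
  have := LinearMap.map_smul₂ (wronskianBilin ℝ) c p q
  exact this

theorem wr_smul_right (c : ℝ) (p q : ℝ[X]) : wronskian p (c • q) = c • wronskian p q :=
  (wronskianBilin ℝ p).map_smul c q

theorem wr_sub_left (a b c : ℝ[X]) : wronskian (a - b) c = wronskian a c - wronskian b c := by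
  rw [sub_eq_add_neg, wronskian_add_left, wronskian_neg_left, ← sub_eq_add_neg]

theorem wr_sub_right (a b c : ℝ[X]) : wronskian a (b - c) = wronskian a b - wronskian a c := by
  rw [sub_eq_add_neg, wronskian_add_right, wronskian_neg_right, ← sub_eq_add_neg]

theorem pl_smul_left (c : ℝ) (p q : ℝ[X]) : pl (c • p) q = c • pl p q := by
  funext i j
  simp only [pl, coeff_smul, smul_eq_mul, Pi.smul_apply]
  ring

theorem pl_smul_right (c : ℝ) (p q : ℝ[X]) : pl p (c • q) = c • pl p q := by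
  funext i j
  simp only [pl, coeff_smul, smul_eq_mul, Pi.smul_apply]
  ring

theorem pl_add_right (p q r : ℝ[X]) : pl p (q + r) = pl p q + pl p r := by
  funext i j
  simp only [pl, coeff_add, Pi.add_apply]
  ring

theorem pl_self (p : ℝ[X]) : pl p p = 0 := by
  funext i j
  simp only [pl, Pi.zero_apply]
  ring

end Pool.Agent.Helper46.WR
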